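import Mathlib

/-!
Rotationally symmetric metrics `dr² + f(r)² g_{S^{n-1}}` on the sphere `S^n` and their geodesics.
-/

namespace Pool.Agent.H848R2.SG

open MeasureTheory Set Real Filter Topology

/-- `f` is the profile of a smooth rotationally symmetric Riemannian metric
`dr² + f(r)² g_{S^{n-1}}` on the sphere `S^n`, `R` being the distance between the two poles.
`f` is a smooth function, positive on `(0,R)`, with the (necessary and sufficient) smoothness
conditions at the two poles: `f` is odd at `0` and odd at `R`, with slopes `1` and `-1`. -/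
structure Profile (R : ℝ) (f : ℝ → ℝ) : Prop where
  R_pos : 0 < R
  smooth : ContDiff ℝ (⊤ : ℕ∞) f
  odd_zero : ∀ r, f (-r) = -f r
  odd_R : ∀ r, f (R + r) = -f (R - r)
  deriv_zero : deriv f 0 = 1
  deriv_R : deriv f R = -1
  pos : ∀ r ∈ Ioo 0 R, 0 < f r

/-- integrand of the rotation angle of the geodesic with Clairaut constant `c`
(it vanishes where `0 ≤ f r ≤ c` by the conventions `√x = 0` for `x ≤ 0`, `x / 0 = 0`). -/
noncomputable def thI (f : ℝ → ℝ) (c r : ℝ) : ℝ := c / (f r * √(f r ^ 2 - c ^ 2))

/-- integrand of the length of the geodesic with Clairaut constant `c`. -/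
noncomputable def leI (f : ℝ → ℝ) (c r : ℝ) : ℝ := f r / √(f r ^ 2 - c ^ 2)

/-- integrand of the reduced action. -/
noncomputable def acI (f : ℝ → ℝ) (c r : ℝ) : ℝ := √(f r ^ 2 - c ^ 2) / f r

end Pool.Agent.H848R2.SG
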