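import Mathlib
import Pool.Agent.H848R2.SG.Defs

/-!
Geodesics of `dr² + f(r)² g_{S^{n-1}}`.
-/

namespace Pool.Agent.H848R2.SG

open MeasureTheory Set Real Filter Topology

/-- The curve `t ↦ (r t, u t)` in `(0,R) × S^{n-1}` (the sphere `S^n` without its two poles) is a
geodesic of the metric `dr² + f(r)² g_{S^{n-1}}`; `u t` is a unit vector of `ℝⁿ`. -/
structure IsGeodesic (n : ℕ) (R : ℝ) (f : ℝ → ℝ) (r : ℝ → ℝ)
    (u : ℝ → EuclideanSpace ℝ (Fin n)) : Prop where
  mem : ∀ t, r t ∈ Ioo 0 R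
  norm_u : ∀ t, ‖u t‖ = 1
  smooth_r : ContDiff ℝ 2 r
  smooth_u : ContDiff ℝ 2 u
  eq_r : ∀ t, deriv (deriv r) t = f (r t) * deriv f (r t) * ‖deriv u t‖ ^ 2
  eq_u : ∀ t, deriv (deriv u) t =
    -(‖deriv u t‖ ^ 2) • u t - (2 * deriv f (r t) / f (r t) * deriv r t) • deriv u t

/-- speed of the curve `t ↦ (r t, u t)` for the metric `dr² + f(r)² g_{S^{n-1}}`. -/
noncomputable def speed {n : ℕ} (f : ℝ → ℝ) (r : ℝ → ℝ) (u : ℝ → EuclideanSpace ℝ (Fin n))
    (t : ℝ) : ℝ :=
  √(deriv r t ^ 2 + f (r t) ^ 2 * ‖deriv u t‖ ^ 2)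

/-- `(r,u)` is a nonconstant geodesic of period `T > 0`. -/
structure IsPeriodicGeodesic (n : ℕ) (R : ℝ) (f : ℝ → ℝ) (r : ℝ → ℝ)
    (u : ℝ → EuclideanSpace ℝ (Fin n)) (T : ℝ) : Prop where
  geo : IsGeodesic n R f r u
  T_pos : 0 < T
  period_r : ∀ t, r (t + T) = r t
  period_u : ∀ t, u (t + T) = u t
  speed_pos : ∀ t, 0 < speed f r u t

/-- The two dimensional rotation used below. -/
theorem closing {n : ℕ} (hn : 2 ≤ n) {R : ℝ} {f : ℝ → ℝ} (hf : Profile R f) {c P : ℝ}
    (hc : 0 < c) {ρ v : ℝ → ℝ} (hmem : ∀ t, ρ t ∈ Ioo 0 R) (hper : ∀ t, ρ (t + P) = ρ t)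
    (hρ : ∀ t, HasDerivAt ρ (v t) t)
    (hv : ∀ t, HasDerivAt v (c ^ 2 * deriv f (ρ t) / f (ρ t) ^ 3) t)
    (hen : ∀ t, v t ^ 2 = 1 - c ^ 2 / f (ρ t) ^ 2) (hP : 0 < P)
    (hang : ∫ t in (0)..P, c / f (ρ t) ^ 2 = π) :
    ∃ u : ℝ → EuclideanSpace ℝ (Fin n), IsPeriodicGeodesic n R f ρ u (2 * P) ∧
      ∀ t, speed f ρ u t = 1 := by
  have hfc : Continuous f := hf.smooth.continuous
  have hρc : Continuous ρ := continuous_iff_continuousAt.2 fun t => (hρ t).continuousAt
  have hpos : ∀ t, 0 < f (ρ t) := fun t => hf.pos _ (hmem t)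
  have hfne : ∀ t, f (ρ t) ≠ 0 := fun t => (hpos t).ne'
  have hfd : ∀ x, HasDerivAt f (deriv f x) x := fun x =>
    (hf.smooth.differentiable (by simp)).differentiableAt.hasDerivAt
  have hdfc : Continuous (deriv f) := hf.smooth.continuous_deriv (by simp)
  set ω : ℝ → ℝ := fun t => c / f (ρ t) ^ 2 with hω
  have hωc : Continuous ω := by
    apply Continuous.div continuous_const ((hfc.comp hρc).pow 2)
    intro t; exact pow_ne_zero 2 (hfne t)
  set θ : ℝ → ℝ := fun t => ∫ s in (0)..t, ω s with hθ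
  have hθd : ∀ t, HasDerivAt θ (ω t) t := fun t =>
    intervalIntegral.integral_hasDerivAt_right (hωc.intervalIntegrable _ _)
      (hωc.stronglyMeasurableAtFilter _ _) hωc.continuousAt
  have hωd : ∀ t, HasDerivAt ω (-(2 * deriv f (ρ t) / f (ρ t) * v t) * ω t) t := by
    intro t
    have h1 : HasDerivAt (fun t => f (ρ t)) (deriv f (ρ t) * v t) t :=
      (hfd (ρ t)).comp t (hρ t)
    have h2 := (h1.pow 2).fun_inv (pow_ne_zero 2 (hfne t))
    have h3 := h2.const_mul c
    refine (h3.congr_deriv ?_).congr_of_eventuallyEq (Eventually.of_forall fun s => ?_)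
    · simp only [hω, Pi.pow_apply]
      have := hfne t
      field_simp
      try ring
    · simp only [hω, div_eq_mul_inv]; rfl
  have hωper : ∀ t, ω (t + P) = ω t := fun t => by simp only [hω, hper t]
  have hθper : ∀ t, θ (t + P) = θ t + π := by
    intro t
    have h1 : θ (t + P) = θ t + ∫ s in t..(t + P), ω s := by
      simp only [hθ]
      rw [intervalIntegral.integral_add_adjacent_intervals (hωc.intervalIntegrable _ _)
        (hωc.intervalIntegrable _ _)]
    rw [h1]
    have h2 := Function.Periodic.intervalIntegral_add_eq (f := ω) (T := P) hωper t 0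
    rw [h2, zero_add]
    rw [← hang]
  let i0 : Fin n := ⟨0, by omega⟩
  let i1 : Fin n := ⟨1, by omega⟩
  have hi : i0 ≠ i1 := by simp [i0, i1, Fin.ext_iff]
  let e0 : EuclideanSpace ℝ (Fin n) := EuclideanSpace.single i0 1
  let e1 : EuclideanSpace ℝ (Fin n) := EuclideanSpace.single i1 1
  have hn2 : ∀ x y : ℝ, ‖x • e0 + y • e1‖ ^ 2 = x ^ 2 + y ^ 2 := by
    intro x y
    rw [← real_inner_self_eq_norm_sq, inner_add_left, inner_add_right, inner_add_right]
    simp only [inner_smul_left, inner_smul_right]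
    simp only [e0, e1, EuclideanSpace.inner_single_left]
    simp [hi, hi.symm]
    ring
  let u : ℝ → EuclideanSpace ℝ (Fin n) := fun t => cos (θ t) • e0 + sin (θ t) • e1
  let w : ℝ → EuclideanSpace ℝ (Fin n) := fun t => (-sin (θ t)) • e0 + cos (θ t) • e1
  have hu : ∀ t, HasDerivAt u (ω t • w t) t := by
    intro t
    have h1 := ((hθd t).cos.smul_const e0).add ((hθd t).sin.smul_const e1)
    refine h1.congr_deriv ?_
    simp only [w, smul_add, smul_smul]
    congr 2 <;> ring
  have hw : ∀ t, HasDerivAt w (-(ω t • u t)) t := by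
    intro t
    have h1 := ((hθd t).sin.neg.smul_const e0).add ((hθd t).cos.smul_const e1)
    refine h1.congr_deriv ?_
    simp only [u, smul_add, smul_smul, ← neg_smul, neg_add]
    congr 2 <;> ring
  have hnu : ∀ t, ‖u t‖ = 1 := by
    intro t
    have h1 : ‖u t‖ ^ 2 = 1 := by
      simp only [u]; rw [hn2]; exact cos_sq_add_sin_sq _
    have h2 := norm_nonneg (u t)
    nlinarith
  have hnw : ∀ t, ‖w t‖ = 1 := by
    intro t
    have h1 : ‖w t‖ ^ 2 = 1 := by
      simp only [w]; rw [hn2]; rw [neg_sq]; exact sin_sq_add_cos_sq _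
    have h2 := norm_nonneg (w t)
    nlinarith
  have hdu : deriv u = fun t => ω t • w t := funext fun t => (hu t).deriv
  have hddu : ∀ t, HasDerivAt (fun t => ω t • w t)
      (ω t • -(ω t • u t) + (-(2 * deriv f (ρ t) / f (ρ t) * v t) * ω t) • w t) t := fun t =>
    (hωd t).smul (hw t)
  have hωpos : ∀ t, 0 < ω t := fun t => div_pos hc (pow_pos (hpos t) 2)
  have hdun : ∀ t, ‖deriv u t‖ = ω t := by
    intro t
    rw [hdu]
    simp only [norm_smul, hnw t, mul_one, Real.norm_eq_abs, abs_of_pos (hωpos t)]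
  have hdρ : deriv ρ = v := funext fun t => (hρ t).deriv
  have hvc : Continuous v := continuous_iff_continuousAt.2 fun t => (hv t).continuousAt
  have hspeed : ∀ t, speed f ρ u t = 1 := by
    intro t
    unfold speed
    rw [hdun, hdρ, hen t]
    have : 1 - c ^ 2 / f (ρ t) ^ 2 + f (ρ t) ^ 2 * ω t ^ 2 = 1 := by
      simp only [hω]
      have := hfne t
      field_simp
      ring
    rw [this, Real.sqrt_one]
  refine ⟨u, ⟨⟨hmem, hnu, ?_, ?_, ?_, ?_⟩, by linarith, ?_, ?_, ?_⟩, hspeed⟩
  · have h1 : ContDiff ℝ (1 + 1) ρ := by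
      rw [contDiff_succ_iff_deriv]
      refine ⟨fun t => (hρ t).differentiableAt, by simp, ?_⟩
      rw [hdρ]
      rw [contDiff_one_iff_deriv]
      refine ⟨fun t => (hv t).differentiableAt, ?_⟩
      have : deriv v = fun t => c ^ 2 * deriv f (ρ t) / f (ρ t) ^ 3 :=
        funext fun t => (hv t).deriv
      rw [this]
      apply Continuous.div (continuous_const.mul (hdfc.comp hρc)) ((hfc.comp hρc).pow 3)
      intro t; exact pow_ne_zero 3 (hfne t)
    exact h1.of_le (by norm_num)
  · have h1 : ContDiff ℝ (1 + 1) u := by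
      rw [contDiff_succ_iff_deriv]
      refine ⟨fun t => (hu t).differentiableAt, by simp, ?_⟩
      rw [hdu]
      rw [contDiff_one_iff_deriv]
      refine ⟨fun t => (hddu t).differentiableAt, ?_⟩
      have : deriv (fun t => ω t • w t) = fun t =>
          (ω t • -(ω t • u t) + (-(2 * deriv f (ρ t) / f (ρ t) * v t) * ω t) • w t) :=
        funext fun t => (hddu t).deriv
      rw [this]
      have huc : Continuous u := continuous_iff_continuousAt.2 fun t => (hu t).continuousAt
      have hwc : Continuous w := continuous_iff_continuousAt.2 fun t => (hw t).continuousAt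
      have h4 : Continuous fun t => 2 * deriv f (ρ t) / f (ρ t) * v t := by
        refine Continuous.mul ?_ hvc
        exact Continuous.div (continuous_const.mul (hdfc.comp hρc)) (hfc.comp hρc) hfne
      exact (hωc.smul ((hωc.smul huc).neg)).add ((h4.neg.mul hωc).smul hwc)
    exact h1.of_le (by norm_num)
  · intro t
    rw [hdρ, (hv t).deriv, hdun]
    simp only [hω]
    have := hfne t
    field_simp
  · intro t
    have h1 : deriv (deriv u) t =
        ω t • -(ω t • u t) + (-(2 * deriv f (ρ t) / f (ρ t) * v t) * ω t) • w t := by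
      rw [hdu]; exact (hddu t).deriv
    rw [h1, hdun, hdρ, hdu]
    simp only [smul_neg, smul_smul, neg_smul, neg_mul, sub_eq_add_neg]
    congr 2
    ring_nf
  · intro t
    have : t + 2 * P = t + P + P := by ring
    rw [this, hper, hper]
  · intro t
    have h1 : θ (t + 2 * P) = θ t + 2 * π := by
      have : t + 2 * P = t + P + P := by ring
      rw [this, hθper, hθper]; ring
    simp only [u, h1, cos_add_two_pi, sin_add_two_pi]
  · intro t
    rw [hspeed]; norm_num

end Pool.Agent.H848R2.SG
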