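import Mathlib
import Pool.Agent.H848R2.SG.Defs

namespace Pool.Agent.H848R2.SG

open MeasureTheory Set Real Filter Topology

namespace T1Aux

theorem left {f : ℝ → ℝ} (hf : ContDiff ℝ 1 f) (h0 : f 0 = 0) (h1 : deriv f 0 = 1)
    {rM m H : ℝ} (hrM : 0 < rM) (hH : 0 < H) (hHm : H < m) (hfM : m ≤ f rM)
    (hcrit : ∀ r ∈ Ioc 0 rM, deriv f r = 0 → m ≤ f r) :
    ∃ α : ℝ, 0 < α ∧ α < rM ∧ f α = H ∧ (∀ r ∈ Icc 0 α, 0 < deriv f r) := by
  have hc : Continuous f := hf.continuous
  have hcd : Continuous (deriv f) := hf.continuous_deriv le_rfl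
  set A : Set ℝ := Icc 0 rM ∩ f ⁻¹' (Ici H) with hA
  have hAcl : IsClosed A := isClosed_Icc.inter (isClosed_Ici.preimage hc)
  have hAne : A.Nonempty := ⟨rM, ⟨hrM.le, le_rfl⟩, (hHm.le.trans hfM : H ≤ f rM)⟩
  have hAbd : BddBelow A := ⟨0, fun x hx => hx.1.1⟩
  set α := sInf A with hα
  have hαA : α ∈ A := hAcl.csInf_mem hAne hAbd
  have hα0 : 0 ≤ α := hαA.1.1
  have hlt : ∀ r, 0 ≤ r → r < α → f r < H := by
    intro r hr0 hr
    by_contra hcon
    push Not at hcon
    have : r ∈ A := ⟨⟨hr0, (hr.le.trans hαA.1.2)⟩, hcon⟩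
    exact absurd (csInf_le hAbd this) (not_le.mpr hr)
  have hfα : f α = H := by
    have hiv := intermediate_value_Icc hα0 hc.continuousOn
    have hmem : H ∈ Icc (f 0) (f α) := ⟨by rw [h0]; exact hH.le, hαA.2⟩
    obtain ⟨r, hr, hrH⟩ := hiv hmem
    have : r ∈ A := ⟨⟨hr.1, hr.2.trans hαA.1.2⟩, hrH.ge⟩
    have h2 : α ≤ r := csInf_le hAbd this
    have h3 : r = α := le_antisymm hr.2 h2
    rw [← h3, hrH]
  have hαpos : 0 < α := by
    rcases hα0.eq_or_lt with h | h
    · rw [← h, h0] at hfα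
      exact absurd hfα hH.ne
    · exact h
  have hαrM : α < rM := by
    rcases hαA.1.2.eq_or_lt with h | h
    · rw [h] at hfα
      linarith
    · exact h
  refine ⟨α, hαpos, hαrM, hfα, fun r hr => ?_⟩
  by_contra hcon
  push Not at hcon
  have hiv := intermediate_value_Icc' hr.1 hcd.continuousOn
  have hmem : (0 : ℝ) ∈ Icc (deriv f r) (deriv f 0) := ⟨hcon, by rw [h1]; norm_num⟩
  obtain ⟨s, hs, hs0⟩ := hiv hmem
  have hspos : 0 < s := by
    rcases hs.1.eq_or_lt with h | h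
    · rw [← h, h1] at hs0
      norm_num at hs0
    · exact h
  have hsα : s ≤ α := hs.2.trans hr.2
  have h4 := hcrit s ⟨hspos, hsα.trans hαrM.le⟩ hs0
  rcases hsα.eq_or_lt with h | h
  · rw [h, hfα] at h4
    linarith
  · have := hlt s hspos.le h
    linarith

end T1Aux

/-- T1 : structure of the profile when all critical values are at least `m`. -/
theorem structure_profile {R : ℝ} {f : ℝ → ℝ} (hf : Profile R f) {m H : ℝ} (hH : 0 < H)
    (hHm : H < m) (hcrit : ∀ r ∈ Ioo 0 R, deriv f r = 0 → m ≤ f r) :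
    ∃ α β : ℝ, 0 < α ∧ α < β ∧ β < R ∧ f α = H ∧ f β = H ∧
      (∀ r ∈ Icc 0 α, 0 < deriv f r) ∧ (∀ r ∈ Icc β R, deriv f r < 0) ∧
      (∀ r ∈ Icc α β, H ≤ f r) := by
  have hR := hf.R_pos
  have hC1 : ContDiff ℝ 1 f := hf.smooth.of_le (by exact_mod_cast le_top)
  have hc : Continuous f := hC1.continuous
  have hd : Differentiable ℝ f := hC1.differentiable one_ne_zero
  have h0 : f 0 = 0 := by
    have := hf.odd_zero 0
    rw [neg_zero] at this
    linarith
  have hR0 : f R = 0 := by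
    have := hf.odd_R 0
    rw [add_zero, sub_zero] at this
    linarith
  obtain ⟨rM, hrM, hmax⟩ := isCompact_Icc.exists_isMaxOn (nonempty_Icc.mpr hR.le) hc.continuousOn
  have hhalf : 0 < f (R / 2) := hf.pos _ ⟨by linarith, by linarith⟩
  have hle : f (R / 2) ≤ f rM := hmax (show R / 2 ∈ Icc 0 R from ⟨by linarith, by linarith⟩)
  have hrM0 : 0 < rM := by
    rcases hrM.1.eq_or_lt with h | h
    · rw [← h, h0] at hle; linarith
    · exact h
  have hrMR : rM < R := by
    rcases hrM.2.eq_or_lt with h | h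
    · rw [h, hR0] at hle; linarith
    · exact h
  have hlm : IsLocalMax f rM := hmax.isLocalMax (Icc_mem_nhds hrM0 hrMR)
  have hdM : deriv f rM = 0 := hlm.deriv_eq_zero
  have hfM : m ≤ f rM := hcrit rM ⟨hrM0, hrMR⟩ hdM
  obtain ⟨α, hα0, hαM, hfα, hαd⟩ := T1Aux.left hC1 h0 hf.deriv_zero hrM0 hH hHm hfM
    (fun r hr hr0 => hcrit r ⟨hr.1, hr.2.trans_lt hrMR⟩ hr0)
  have hgd : ∀ r, deriv (fun x => f (R - x)) r = -deriv f (R - r) := by
    intro r
    exact deriv_comp_const_sub f R r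
  obtain ⟨γ, hγ0, hγM, hfγ, hγd⟩ := T1Aux.left (f := fun x => f (R - x)) (rM := R - rM)
    (hC1.comp (contDiff_const.sub contDiff_id)) (by simp [hR0])
    (by rw [hgd, sub_zero, hf.deriv_R]; norm_num) (by linarith) hH hHm
    (by simpa using hfM)
    (fun r hr hr0 => by
      rw [hgd, neg_eq_zero] at hr0
      exact hcrit (R - r) ⟨by linarith [hr.2], by linarith [hr.1]⟩ hr0)
  refine ⟨α, R - γ, hα0, by linarith, by linarith, hfα, hfγ, hαd, ?_, ?_⟩
  · intro r hr
    have := hγd (R - r) ⟨by linarith [hr.2], by linarith [hr.1]⟩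
    rw [hgd, sub_sub_cancel] at this
    linarith
  · intro r hr
    by_contra hcon
    push Not at hcon
    have hαβ : α ≤ R - γ := by linarith
    obtain ⟨q, hq, hmin⟩ := isCompact_Icc.exists_isMinOn (nonempty_Icc.mpr hαβ) hc.continuousOn
    have hqr : f q ≤ f r := hmin hr
    have hq1 : α < q := by
      rcases hq.1.eq_or_lt with h | h
      · rw [← h, hfα] at hqr; linarith
      · exact h
    have hq2 : q < R - γ := by
      rcases hq.2.eq_or_lt with h | h
      · rw [h] at hqr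
        have hfγ' : f (R - γ) = H := hfγ
        rw [hfγ'] at hqr; linarith
      · exact h
    have hlmin : IsLocalMin f q := hmin.isLocalMin (Icc_mem_nhds hq1 hq2)
    have := hcrit q ⟨by linarith, by linarith⟩ hlmin.deriv_eq_zero
    linarith

end Pool.Agent.H848R2.SG
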