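import Mathlib
import Pool.Agent.H848R2.SG.Defs

namespace Pool.Agent.H848R2.SG

open MeasureTheory Set Real Filter Topology

namespace T2aux

/-- the model kernel -/
noncomputable def kk (w : ℝ) : ℝ := (Ioi (1:ℝ)).indicator (fun w => 1 / (w * √(w ^ 2 - 1))) w

lemma hasDeriv_arctan {w : ℝ} (hw : 1 < w) :
    HasDerivAt (fun w => arctan (√(w ^ 2 - 1))) (1 / (w * √(w ^ 2 - 1))) w := by
  have h0 : 0 < w ^ 2 - 1 := by nlinarith
  have h1 : HasDerivAt (fun w : ℝ => w ^ 2 - 1) (2 * w) w := by
    simpa using (hasDerivAt_pow 2 w).sub_const 1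
  have h2 := (h1.sqrt h0.ne').arctan
  refine h2.congr_deriv ?_
  have h3 : 0 < √(w ^ 2 - 1) := Real.sqrt_pos.2 h0
  have h4 : √(w ^ 2 - 1) ^ 2 = w ^ 2 - 1 := Real.sq_sqrt h0.le
  rw [h4]
  have hw0 : w ≠ 0 := by positivity
  field_simp
  ring

lemma tendsto_arctan_sqrt : Tendsto (fun w : ℝ => arctan (√(w ^ 2 - 1))) atTop (𝓝 (π / 2)) := by
  have h1 : Tendsto (fun w : ℝ => √(w ^ 2 - 1)) atTop atTop := by
    apply Real.tendsto_sqrt_atTop.comp
    exact tendsto_atTop_add_const_right _ _ (tendsto_pow_atTop (by norm_num))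
  exact (tendsto_nhds_of_tendsto_nhdsWithin Real.tendsto_arctan_atTop).comp h1

lemma integrable_kk : Integrable kk := by
  unfold kk
  rw [show (fun w => (Ioi (1:ℝ)).indicator (fun w => 1 / (w * √(w ^ 2 - 1))) w) =
    (Ioi (1:ℝ)).indicator (fun w => 1 / (w * √(w ^ 2 - 1))) from rfl,
    integrable_indicator_iff measurableSet_Ioi]
  apply integrableOn_Ioi_deriv_of_nonneg (g := fun w => arctan (√(w ^ 2 - 1))) (l := π / 2)
  · exact (by fun_prop : Continuous (fun w : ℝ => arctan (√(w ^ 2 - 1)))).continuousWithinAt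
  · intro w hw; exact hasDeriv_arctan hw
  · intro w hw
    have : (0:ℝ) < w := lt_trans one_pos hw
    positivity
  · exact tendsto_arctan_sqrt

lemma integral_kk : ∫ w, kk w = π / 2 := by
  unfold kk
  rw [integral_indicator measurableSet_Ioi]
  rw [integral_Ioi_of_hasDerivAt_of_nonneg (g := fun w => arctan (√(w ^ 2 - 1))) (l := π / 2)]
  · simp
  · exact (by fun_prop : Continuous (fun w : ℝ => arctan (√(w ^ 2 - 1)))).continuousWithinAt
  · intro w hw; exact hasDeriv_arctan hw
  · intro w hw
    have : (0:ℝ) < w := lt_trans one_pos hw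
    positivity
  · exact tendsto_arctan_sqrt

lemma kk_nonneg (w : ℝ) : 0 ≤ kk w := by
  unfold kk
  apply indicator_nonneg
  intro w hw
  have : (0:ℝ) < w := lt_trans one_pos hw
  positivity

/-- the inverse density -/
lemma exists_gamma {f : ℝ → ℝ} (hf : ContDiff ℝ 1 f) {α : ℝ} (hα : 0 < α)
    (h0 : f 0 = 0) (h1 : deriv f 0 = 1) (hder : ∀ r ∈ Icc 0 α, 0 < deriv f r) :
    ∃ (γ : ℝ → ℝ) (K : ℝ), Continuous γ ∧ (∀ u, 0 ≤ γ u) ∧ (∀ u, γ u ≤ K) ∧ γ 0 = 1 ∧
      ∀ r ∈ Icc 0 α, γ (f r) * deriv f r = 1 := by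
  have hdc : Continuous (deriv f) := hf.continuous_deriv (le_refl _)
  let d : ℝ → ℝ := fun s => deriv f (projIcc 0 α hα.le s : ℝ)
  have hd : Continuous d := hdc.comp (continuous_subtype_val.comp continuous_projIcc)
  have hdpos : ∀ s, 0 < d s := fun s => hder _ (projIcc 0 α hα.le s).2
  obtain ⟨r0, hr0, hmin⟩ := isCompact_Icc.exists_isMinOn (nonempty_Icc.2 hα.le)
    (hdc.continuousOn (s := Icc 0 α))
  set m := deriv f r0 with hm
  have hmpos : 0 < m := hder r0 hr0
  have hdm : ∀ s, m ≤ d s := fun s => hmin (projIcc 0 α hα.le s).2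
  let F : ℝ → ℝ := fun r => ∫ s in (0:ℝ)..r, d s
  have hFd : ∀ r, HasDerivAt F (d r) r := fun r =>
    intervalIntegral.integral_hasDerivAt_right (hd.intervalIntegrable _ _)
      (hd.stronglyMeasurableAtFilter _ _) hd.continuousAt
  have hFmono : StrictMono F := by
    apply strictMono_of_hasDerivAt_pos hFd
    exact hdpos
  have hFcont : Continuous F := continuous_iff_continuousAt.2 fun r => (hFd r).continuousAt
  have hFge : ∀ r, 0 ≤ r → m * r ≤ F r := by
    intro r hr
    have h2 : ∫ s in (0:ℝ)..r, m ≤ ∫ s in (0:ℝ)..r, d s :=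
      intervalIntegral.integral_mono_on hr (by simp) (hd.intervalIntegrable _ _)
        (fun s _ => hdm s)
    simpa [mul_comm] using h2
  have hFle : ∀ r, r ≤ 0 → F r ≤ m * r := by
    intro r hr
    have h2 : ∫ s in r..(0:ℝ), m ≤ ∫ s in r..(0:ℝ), d s :=
      intervalIntegral.integral_mono_on hr (by simp) (hd.intervalIntegrable _ _)
        (fun s _ => hdm s)
    have h3 : F r = - ∫ s in r..(0:ℝ), d s := intervalIntegral.integral_symm _ _
    rw [h3]
    simp only [intervalIntegral.integral_const, smul_eq_mul] at h2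
    linarith
  have hFtop : Tendsto F atTop atTop := by
    apply tendsto_atTop_mono' _ _ (tendsto_id.const_mul_atTop hmpos)
    filter_upwards [eventually_ge_atTop 0] with r hr using hFge r hr
  have hFbot : Tendsto F atBot atBot := by
    apply tendsto_atBot_mono' _ _ (tendsto_id.const_mul_atBot hmpos)
    filter_upwards [eventually_le_atBot 0] with r hr using hFle r hr
  have hFsurj : Function.Surjective F := hFcont.surjective hFtop hFbot
  let e := hFmono.orderIsoOfSurjective F hFsurj
  have heF : ∀ r, e r = F r := fun r => rfl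
  have hFf : ∀ r ∈ Icc 0 α, F r = f r := by
    intro r hr
    have h2 : ∫ s in (0:ℝ)..r, d s = ∫ s in (0:ℝ)..r, deriv f s := by
      apply intervalIntegral.integral_congr
      intro s hs
      rw [uIcc_of_le hr.1] at hs
      simp only [d]
      rw [projIcc_of_mem hα.le (⟨hs.1, hs.2.trans hr.2⟩ : s ∈ Icc 0 α)]
    have h3 : ∫ s in (0:ℝ)..r, deriv f s = f r - f 0 :=
      intervalIntegral.integral_deriv_eq_sub (fun s _ => (hf.differentiable (by norm_num)) s)
        (hdc.intervalIntegrable _ _)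
    simp only [F]
    rw [h2, h3, h0, sub_zero]
  refine ⟨fun u => 1 / d (e.symm u), 1 / m, ?_, ?_, ?_, ?_, ?_⟩
  · exact continuous_const.div (hd.comp e.symm.continuous) (fun u => (hdpos _).ne')
  · intro u; exact div_nonneg zero_le_one (hdpos _).le
  · intro u; exact one_div_le_one_div_of_le hmpos (hdm _)
  · have h2 : e.symm 0 = 0 := by
      rw [OrderIso.symm_apply_eq, heF, hFf 0 (left_mem_Icc.2 hα.le), h0]
    simp only [h2, d]
    rw [projIcc_of_mem hα.le (left_mem_Icc.2 hα.le)]
    simp [h1]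
  · intro r hr
    have h2 : e.symm (f r) = r := by
      rw [OrderIso.symm_apply_eq, heF, hFf r hr]
    simp only [h2, d]
    rw [projIcc_of_mem hα.le hr]
    exact one_div_mul_cancel (hder r hr).ne'

end T2aux

open T2aux in
/-- T2 : contribution of one end to the rotation angle. -/
theorem end_part {f : ℝ → ℝ} (hf : ContDiff ℝ 1 f) {α H : ℝ} (hα : 0 < α) (hH : 0 < H)
    (h0 : f 0 = 0) (h1 : deriv f 0 = 1) (hder : ∀ r ∈ Icc 0 α, 0 < deriv f r) (hfα : f α = H) :
    (∀ c ∈ Ioo 0 H, IntegrableOn (thI f c) (Ioo 0 α)) ∧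
    ContinuousOn (fun c => ∫ r in Ioo 0 α, thI f c r) (Ioo 0 H) ∧
    Tendsto (fun c => ∫ r in Ioo 0 α, thI f c r) (𝓝[>] 0) (𝓝 (π / 2)) := by
  obtain ⟨γ, K, hγc, hγ0, hγK, hγ1, hγf⟩ := exists_gamma hf hα h0 h1 hder
  have hfc : Continuous f := hf.continuous
  have hmono : StrictMonoOn f (Icc 0 α) := by
    apply strictMonoOn_of_deriv_pos (convex_Icc 0 α) hfc.continuousOn
    intro r hr
    rw [interior_Icc] at hr
    exact hder r (Ioo_subset_Icc_self hr)
  have himg : f '' Ioo 0 α = Ioo 0 H := by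
    apply Subset.antisymm
    · rintro _ ⟨r, hr, rfl⟩
      constructor
      · rw [← h0]; exact hmono (left_mem_Icc.2 hα.le) (Ioo_subset_Icc_self hr) hr.1
      · rw [← hfα]; exact hmono (Ioo_subset_Icc_self hr) (right_mem_Icc.2 hα.le) hr.2
    · have := intermediate_value_Ioo hα.le (hfc.continuousOn (s := Icc 0 α))
      rwa [h0, hfα] at this
  have hder' : ∀ r ∈ Ioo 0 α, HasDerivWithinAt f (deriv f r) (Ioo 0 α) r := fun r _ =>
    ((hf.differentiable (by norm_num)) r).hasDerivAt.hasDerivWithinAt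
  have hinj : InjOn f (Ioo 0 α) := (hmono.injOn).mono Ioo_subset_Icc_self
  -- the two substitutions
  let G : ℝ → ℝ → ℝ := fun c u => c / (u * √(u ^ 2 - c ^ 2))
  let Φ : ℝ → ℝ → ℝ := fun c w => if c * w < H then γ (c * w) * kk w else 0
  have hscale : ∀ c, 0 < c → ∀ w, (Ioo 0 (H / c)).indicator
      (fun w => |c| • (γ (c * w) * G c (c * w))) w = Φ c w := by
    intro c hc w
    simp only [Φ, G]
    by_cases hw : w ∈ Ioo 0 (H / c)
    · rw [indicator_of_mem hw]
      have hw2 : c * w < H := by rw [mul_comm]; exact (lt_div_iff₀ hc).1 hw.2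
      rw [if_pos hw2, abs_of_pos hc, smul_eq_mul]
      unfold kk
      by_cases hw1 : 1 < w
      · rw [indicator_of_mem (show w ∈ Ioi (1:ℝ) from hw1)]
        have e1 : (c * w) ^ 2 - c ^ 2 = c ^ 2 * (w ^ 2 - 1) := by ring
        rw [e1, Real.sqrt_mul (sq_nonneg c), Real.sqrt_sq hc.le]
        have h3 : 0 < √(w ^ 2 - 1) := Real.sqrt_pos.2 (by nlinarith)
        have hw0 : w ≠ 0 := by positivity
        field_simp
      · rw [indicator_of_notMem (show w ∉ Ioi (1:ℝ) from hw1)]
        have e1 : (c * w) ^ 2 - c ^ 2 ≤ 0 := by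
          have : w ^ 2 ≤ 1 := by nlinarith [hw.1, not_lt.1 hw1]
          nlinarith [sq_nonneg c]
        rw [Real.sqrt_eq_zero_of_nonpos e1]
        simp
    · rw [indicator_of_notMem hw]
      by_cases hw2 : c * w < H
      · rw [if_pos hw2]
        have hw3 : w ≤ 0 := by
          by_contra hcon
          push Not at hcon
          exact hw ⟨hcon, by rw [lt_div_iff₀ hc, mul_comm]; exact hw2⟩
        unfold kk
        rw [indicator_of_notMem (show w ∉ Ioi (1:ℝ) from by
          simp only [mem_Ioi, not_lt]; linarith)]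
        simp
      · rw [if_neg hw2]
  have himg2 : ∀ c, 0 < c → (fun w => c * w) '' Ioo 0 (H / c) = Ioo 0 H := by
    intro c hc
    ext u
    simp only [mem_image, mem_Ioo]
    constructor
    · rintro ⟨w, ⟨h2, h3⟩, rfl⟩
      rw [lt_div_iff₀ hc] at h3
      exact ⟨by positivity, by linarith⟩
    · rintro ⟨h2, h3⟩
      refine ⟨u / c, ⟨by positivity, by gcongr⟩, by field_simp⟩
  have hder2 : ∀ c : ℝ, ∀ w ∈ Ioo 0 (H / c), HasDerivWithinAt (fun w => c * w) c (Ioo 0 (H / c)) w :=
    fun c w _ => by simpa using ((hasDerivAt_id w).const_mul c).hasDerivWithinAt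
  have hinj2 : ∀ c, 0 < c → InjOn (fun w => c * w) (Ioo 0 (H / c)) := fun c hc x _ y _ hxy =>
    mul_left_cancel₀ hc.ne' hxy
  have hΦmeas : ∀ c, AEStronglyMeasurable (Φ c) volume := by
    intro c
    have hk : AEStronglyMeasurable kk volume := integrable_kk.aestronglyMeasurable
    have h2 : AEStronglyMeasurable (fun w => γ (c * w) * kk w) volume :=
      (hγc.comp (continuous_const.mul continuous_id)).aestronglyMeasurable.mul hk
    have h3 : Φ c = {w | c * w < H}.indicator (fun w => γ (c * w) * kk w) := by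
      ext w; simp only [Φ, indicator, mem_ofPred_eq]
    rw [h3]
    exact h2.indicator (measurableSet_lt (by fun_prop) (by fun_prop))
  have hΦbd : ∀ c w, ‖Φ c w‖ ≤ K * kk w := by
    intro c w
    have hK : 0 ≤ K := (hγ0 0).trans (hγK 0)
    simp only [Φ]
    split_ifs
    · rw [Real.norm_eq_abs, abs_of_nonneg (mul_nonneg (hγ0 _) (kk_nonneg w))]
      exact mul_le_mul_of_nonneg_right (hγK _) (kk_nonneg w)
    · simpa using mul_nonneg hK (kk_nonneg w)
  have hΦint : ∀ c, Integrable (Φ c) := fun c =>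
    Integrable.mono' (integrable_kk.const_mul K) (hΦmeas c) (Eventually.of_forall (hΦbd c))
  have hG1 : ∀ c, IntegrableOn (fun u => γ u * G c u) (f '' Ioo 0 α) ↔
      IntegrableOn (fun r => |deriv f r| • (γ (f r) * G c (f r))) (Ioo 0 α) := fun c =>
    integrableOn_image_iff_integrableOn_abs_deriv_smul measurableSet_Ioo hder' hinj _
  have hG2 : ∀ c, ∫ u in f '' Ioo 0 α, γ u * G c u =
      ∫ r in Ioo 0 α, |deriv f r| • (γ (f r) * G c (f r)) := fun c =>
    integral_image_eq_integral_abs_deriv_smul measurableSet_Ioo hder' hinj _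
  have hth : ∀ c, EqOn (fun r => |deriv f r| • (γ (f r) * G c (f r))) (thI f c) (Ioo 0 α) := by
    intro c r hr
    have h2 := hγf r (Ioo_subset_Icc_self hr)
    simp only [smul_eq_mul]
    rw [abs_of_pos (hder r (Ioo_subset_Icc_self hr))]
    have : deriv f r * (γ (f r) * G c (f r)) = (γ (f r) * deriv f r) * G c (f r) := by ring
    rw [this, h2, one_mul]
    rfl
  have hI1 : ∀ c, 0 < c → IntegrableOn (fun u => γ u * G c u) (Ioo 0 H) := by
    intro c hc
    rw [← himg2 c hc, integrableOn_image_iff_integrableOn_abs_deriv_smul measurableSet_Ioo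
      (hder2 c) (hinj2 c hc), ← integrable_indicator_iff measurableSet_Ioo]
    have : (Ioo 0 (H / c)).indicator (fun w => |c| • (γ (c * w) * G c (c * w))) = Φ c :=
      funext (hscale c hc)
    rw [this]
    exact hΦint c
  have hI2 : ∀ c, 0 < c → ∫ u in Ioo 0 H, γ u * G c u = ∫ w, Φ c w := by
    intro c hc
    rw [← himg2 c hc, integral_image_eq_integral_abs_deriv_smul measurableSet_Ioo
      (hder2 c) (hinj2 c hc), ← integral_indicator measurableSet_Ioo]
    exact integral_congr_ae (Eventually.of_forall (hscale c hc))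
  have hfin : ∀ c, 0 < c → ∫ r in Ioo 0 α, thI f c r = ∫ w, Φ c w := by
    intro c hc
    rw [← hI2 c hc, ← himg, hG2 c]
    exact (setIntegral_congr_fun measurableSet_Ioo (hth c)).symm
  refine ⟨?_, ?_, ?_⟩
  · intro c hc
    have h2 := (hG1 c).1 (by rw [himg]; exact hI1 c hc.1)
    exact h2.congr_fun (hth c) measurableSet_Ioo
  · intro c0 hc0
    apply ContinuousAt.continuousWithinAt
    have h2 : Tendsto (fun c => ∫ w, Φ c w) (𝓝 c0) (𝓝 (∫ w, Φ c0 w)) := by
      apply tendsto_integral_filter_of_dominated_convergence (fun w => K * kk w)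
      · exact Eventually.of_forall hΦmeas
      · exact Eventually.of_forall fun c => Eventually.of_forall (hΦbd c)
      · exact integrable_kk.const_mul K
      · have hne : ∀ᵐ w : ℝ, w ≠ H / c0 := by
          rw [ae_iff]; simp
        filter_upwards [hne] with w hw
        have hcw : Tendsto (fun c => c * w) (𝓝 c0) (𝓝 (c0 * w)) :=
          (continuous_id.mul continuous_const).tendsto c0
        rcases lt_trichotomy (c0 * w) H with h3 | h3 | h3
        · have h4 : ∀ᶠ c in 𝓝 c0, c * w < H := hcw.eventually (gt_mem_nhds h3)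
          have h5 : Tendsto (fun c => γ (c * w) * kk w) (𝓝 c0) (𝓝 (γ (c0 * w) * kk w)) :=
            ((hγc.tendsto _).comp hcw).mul_const _
          simp only [Φ]
          rw [if_pos h3]
          refine h5.congr' ?_
          filter_upwards [h4] with c hc
          rw [if_pos hc]
        · exact absurd (by rw [eq_div_iff hc0.1.ne']; linarith) hw
        · have h4 : ∀ᶠ c in 𝓝 c0, H < c * w := hcw.eventually (lt_mem_nhds h3)
          simp only [Φ]
          rw [if_neg (not_lt.2 h3.le)]
          refine tendsto_const_nhds.congr' ?_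
          filter_upwards [h4] with c hc
          rw [if_neg (not_lt.2 hc.le)]
    have h3 : ∫ r in Ioo 0 α, thI f c0 r = ∫ w, Φ c0 w := hfin c0 hc0.1
    rw [ContinuousAt, h3]
    refine h2.congr' ?_
    filter_upwards [lt_mem_nhds hc0.1] with c hc
    exact (hfin c hc).symm
  · have h2 : Tendsto (fun c => ∫ w, Φ c w) (𝓝[>] 0) (𝓝 (∫ w, kk w)) := by
      apply tendsto_integral_filter_of_dominated_convergence (fun w => K * kk w)
      · exact Eventually.of_forall hΦmeas
      · exact Eventually.of_forall fun c => Eventually.of_forall (hΦbd c)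
      · exact integrable_kk.const_mul K
      · refine Eventually.of_forall fun w => ?_
        have hcw : Tendsto (fun c : ℝ => c * w) (𝓝 0) (𝓝 (0 * w)) :=
          (continuous_id.mul continuous_const).tendsto 0
        rw [zero_mul] at hcw
        have h4 : ∀ᶠ c in 𝓝[>] (0:ℝ), c * w < H :=
          (hcw.eventually (gt_mem_nhds hH)).filter_mono nhdsWithin_le_nhds
        have h5 : Tendsto (fun c => γ (c * w) * kk w) (𝓝[>] 0) (𝓝 (γ 0 * kk w)) :=
          (((hγc.tendsto _).comp hcw).mono_left nhdsWithin_le_nhds).mul_const _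
        rw [hγ1, one_mul] at h5
        refine h5.congr' ?_
        filter_upwards [h4] with c hc
        simp only [Φ]
        rw [if_pos hc]
    rw [integral_kk] at h2
    refine h2.congr' ?_
    filter_upwards [self_mem_nhdsWithin] with c hc
    exact (hfin c hc).symm

end Pool.Agent.H848R2.SG
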