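import Mathlib
import Pool.Agent.H848R2.SG.Defs

namespace Pool.Agent.H848R2.SG

open MeasureTheory Set Real Filter Topology

namespace T2mAux

theorem thI_bound {f : ℝ → ℝ} {H c c1 r : ℝ} (hH : 0 < H) (hc1 : c1 < H) (hc : |c| ≤ c1)
    (hr : H ≤ f r) : ‖thI f c r‖ ≤ c1 / (H * √(H ^ 2 - c1 ^ 2)) := by
  have h0 : 0 ≤ c1 := (abs_nonneg c).trans hc
  have hpos : 0 < H ^ 2 - c1 ^ 2 := by nlinarith
  have hc2 : c ^ 2 ≤ c1 ^ 2 := by
    rw [← sq_abs c]
    exact pow_le_pow_left₀ (abs_nonneg c) hc 2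
  have hf2 : H ^ 2 ≤ f r ^ 2 := pow_le_pow_left₀ hH.le hr 2
  have hs : √(H ^ 2 - c1 ^ 2) ≤ √(f r ^ 2 - c ^ 2) := Real.sqrt_le_sqrt (by linarith)
  have hs0 : 0 < √(H ^ 2 - c1 ^ 2) := Real.sqrt_pos.mpr hpos
  have hfr : 0 < f r := lt_of_lt_of_le hH hr
  unfold thI
  rw [Real.norm_eq_abs, abs_div, abs_mul, abs_of_pos hfr, abs_of_nonneg (Real.sqrt_nonneg _)]
  gcongr

theorem cont {f : ℝ → ℝ} (hf : Continuous f) {α β H : ℝ} (hH : 0 < H)
    (hmid : ∀ r ∈ Icc α β, H ≤ f r) (c0 : ℝ) (hc0 : |c0| < H) :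
    ContinuousAt (fun c => ∫ r in Icc α β, thI f c r) c0 := by
  obtain ⟨c1, h1, h2⟩ := exists_between hc0
  have hev : ∀ᶠ c in 𝓝 c0, |c| ≤ c1 := by
    have : ContinuousAt (fun c : ℝ => |c|) c0 := continuous_abs.continuousAt
    exact (this.eventually (gt_mem_nhds h1)).mono fun c hc => le_of_lt hc
  refine continuousAt_of_dominated (bound := fun _ => c1 / (H * √(H ^ 2 - c1 ^ 2))) ?_ ?_ ?_ ?_
  · refine Filter.Eventually.of_forall fun c => ?_
    refine Measurable.aestronglyMeasurable ?_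
    unfold thI
    have := hf.measurable
    fun_prop
  · filter_upwards [hev] with c hc
    refine (ae_restrict_iff' measurableSet_Icc).mpr (Filter.Eventually.of_forall fun r hr => ?_)
    exact thI_bound hH h2 hc (hmid r hr)
  · exact integrableOn_const (by simp)
  · refine (ae_restrict_iff' measurableSet_Icc).mpr (Filter.Eventually.of_forall fun r hr => ?_)
    have hfr : H ≤ f r := hmid r hr
    have hfr0 : 0 < f r := lt_of_lt_of_le hH hfr
    have hlt : c0 ^ 2 < f r ^ 2 := by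
      rw [← sq_abs c0]
      exact pow_lt_pow_left₀ (lt_of_lt_of_le hc0 hfr) (abs_nonneg _) two_ne_zero
    have hs : √(f r ^ 2 - c0 ^ 2) ≠ 0 := (Real.sqrt_pos.mpr (by linarith)).ne'
    unfold thI
    refine ContinuousAt.div continuousAt_id ?_ (mul_ne_zero hfr0.ne' hs)
    fun_prop

end T2mAux

/-- T2' : contribution of the middle part to the rotation angle. -/
theorem mid_part {f : ℝ → ℝ} (hf : Continuous f) {α β H : ℝ} (hαβ : α < β) (hH : 0 < H)
    (hmid : ∀ r ∈ Icc α β, H ≤ f r) :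
    (∀ c ∈ Ioo 0 H, IntegrableOn (thI f c) (Icc α β)) ∧
    ContinuousOn (fun c => ∫ r in Icc α β, thI f c r) (Ioo 0 H) ∧
    Tendsto (fun c => ∫ r in Icc α β, thI f c r) (𝓝[>] 0) (𝓝 0) := by
  refine ⟨fun c hc => ?_, fun c hc => ?_, ?_⟩
  · refine ContinuousOn.integrableOn_Icc ?_
    intro r hr
    have hfr : H ≤ f r := hmid r hr
    have hfr0 : 0 < f r := lt_of_lt_of_le hH hfr
    have hlt : c ^ 2 < f r ^ 2 :=
      pow_lt_pow_left₀ (lt_of_lt_of_le hc.2 hfr) hc.1.le two_ne_zero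
    have hs : √(f r ^ 2 - c ^ 2) ≠ 0 := (Real.sqrt_pos.mpr (by linarith)).ne'
    unfold thI
    refine ContinuousAt.continuousWithinAt ?_
    refine ContinuousAt.div continuousAt_const ?_ (mul_ne_zero hfr0.ne' hs)
    fun_prop
  · refine (T2mAux.cont hf hH hmid c ?_).continuousWithinAt
    rw [abs_of_pos hc.1]
    exact hc.2
  · have h := T2mAux.cont hf hH hmid 0 (by simpa using hH)
    have h2 : Tendsto (fun c => ∫ r in Icc α β, thI f c r) (𝓝 0)
        (𝓝 (∫ r in Icc α β, thI f 0 r)) := h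
    have h3 : (∫ r in Icc α β, thI f 0 r) = 0 := by
      have : thI f 0 = fun _ => (0 : ℝ) := by
        funext r
        simp [thI]
      rw [this]
      simp
    rw [h3] at h2
    exact h2.mono_left nhdsWithin_le_nhds

end Pool.Agent.H848R2.SG
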