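import Mathlib
import Pool.Agent.H848R2.SG.Defs

namespace Pool.Agent.H848R2.SG

open MeasureTheory Set Real Filter Topology

namespace T3

theorem arcsin_le {x : ℝ} (h0 : 0 ≤ x) (h1 : x ≤ 1) : arcsin x ≤ π / 2 * x := by
  have h2 := Real.mul_le_sin (arcsin_nonneg.mpr h0) (arcsin_le_pi_div_two x)
  rw [sin_arcsin (by linarith) h1] at h2
  have hπ := Real.pi_pos
  rw [div_mul_eq_mul_div, div_le_iff₀ hπ] at h2
  linarith

/-- the one-dimensional integral in `c` -/
theorem inner_le {F h : ℝ} (hF : 0 < F) (hh : 0 < h) (k : ℕ) :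
    ∫⁻ c in Icc (h / 2) h, ENNReal.ofReal (F / √(F ^ 2 - c ^ 2)) ≤
      ENNReal.ofReal (π / 2 * h * (2 * F / h) ^ k) := by
  rcases le_or_gt F (h / 2) with h1 | h1
  · have : ∫⁻ c in Icc (h / 2) h, ENNReal.ofReal (F / √(F ^ 2 - c ^ 2)) = 0 := by
      rw [setLIntegral_congr_fun (g := fun _ => 0) measurableSet_Icc]
      · simp
      · intro c hc
        have h2 : F ^ 2 - c ^ 2 ≤ 0 := by
          have := hc.1
          nlinarith
        simp only
        rw [sqrt_eq_zero'.mpr h2, div_zero, ENNReal.ofReal_zero]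
    rw [this]
    exact zero_le
  · set m := min h F with hm
    have hm0 : 0 < m := lt_min hh hF
    have hmF : m ≤ F := min_le_right _ _
    have hmh : m ≤ h := min_le_left _ _
    -- the antiderivative
    have hcont : ContinuousOn (fun c => F * arcsin (c / F)) (Icc 0 m) := by
      apply Continuous.continuousOn
      exact continuous_const.mul (Real.continuous_arcsin.comp (continuous_id.div_const F))
    have hder : ∀ c ∈ Ioo 0 m, HasDerivAt (fun c => F * arcsin (c / F))
        (F / √(F ^ 2 - c ^ 2)) c := by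
      intro c hc
      have hc1 : c / F < 1 := by rw [div_lt_one hF]; exact lt_of_lt_of_le hc.2 hmF
      have hc0 : 0 < c / F := div_pos hc.1 hF
      have h2 := (Real.hasDerivAt_arcsin (x := c / F) (by linarith) (by linarith)).comp c
        ((hasDerivAt_id c).div_const F)
      have h3 := h2.const_mul F
      convert! h3 using 1
      have h4 : √(1 - (c / F) ^ 2) = √(F ^ 2 - c ^ 2) / F := by
        rw [show 1 - (c / F) ^ 2 = (F ^ 2 - c ^ 2) / F ^ 2 by field_simp,
          sqrt_div' _ (by positivity), sqrt_sq hF.le]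
      rw [h4]
      have h5 : 0 < √(F ^ 2 - c ^ 2) := by
        apply sqrt_pos.mpr
        have := hc.1
        have : c < F := lt_of_lt_of_le hc.2 hmF
        nlinarith
      field_simp
    have hnn : ∀ c ∈ Ioo 0 m, 0 ≤ F / √(F ^ 2 - c ^ 2) := fun c _ => by positivity
    have hint : IntegrableOn (fun c => F / √(F ^ 2 - c ^ 2)) (Ioc 0 m) :=
      intervalIntegral.integrableOn_deriv_of_nonneg hcont hder hnn
    have hval : ∫ c in (0)..m, F / √(F ^ 2 - c ^ 2) = F * arcsin (m / F) := by
      rw [intervalIntegral.integral_eq_sub_of_hasDerivAt_of_le hm0.le hcont hder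
        ((intervalIntegrable_iff_integrableOn_Ioc_of_le hm0.le).mpr hint)]
      simp
    have hle : F * arcsin (m / F) ≤ π / 2 * h := by
      have h2 : arcsin (m / F) ≤ π / 2 * (m / F) :=
        arcsin_le (by positivity) ((div_le_one hF).mpr hmF)
      calc F * arcsin (m / F) ≤ F * (π / 2 * (m / F)) := by gcongr
        _ = π / 2 * m := by field_simp
        _ ≤ π / 2 * h := by gcongr
    have hone : (1 : ℝ) ≤ (2 * F / h) ^ k := by
      apply one_le_pow₀
      rw [le_div_iff₀ hh]
      linarith
    calc ∫⁻ c in Icc (h / 2) h, ENNReal.ofReal (F / √(F ^ 2 - c ^ 2))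
        ≤ ∫⁻ c in Ioc 0 m ∪ Icc m h, ENNReal.ofReal (F / √(F ^ 2 - c ^ 2)) := by
          apply lintegral_mono_set
          intro c hc
          rcases le_or_gt c m with h2 | h2
          · exact Or.inl ⟨lt_of_lt_of_le (by positivity) hc.1, h2⟩
          · exact Or.inr ⟨h2.le, hc.2⟩
      _ ≤ (∫⁻ c in Ioc 0 m, ENNReal.ofReal (F / √(F ^ 2 - c ^ 2))) +
          ∫⁻ c in Icc m h, ENNReal.ofReal (F / √(F ^ 2 - c ^ 2)) := lintegral_union_le _ _ _
      _ = (∫⁻ c in Ioc 0 m, ENNReal.ofReal (F / √(F ^ 2 - c ^ 2))) + 0 := by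
          congr 1
          rcases le_or_gt h F with h2 | h2
          · have : m = h := min_eq_left h2
            rw [this, Icc_self]
            simp
          · have : m = F := min_eq_right h2.le
            rw [this, setLIntegral_congr_fun (g := fun _ => 0) measurableSet_Icc]
            · simp
            · intro c hc
              have h3 : F ^ 2 - c ^ 2 ≤ 0 := by
                have := hc.1
                nlinarith
              simp only
              rw [sqrt_eq_zero'.mpr h3, div_zero, ENNReal.ofReal_zero]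
      _ = ENNReal.ofReal (∫ c in Ioc 0 m, F / √(F ^ 2 - c ^ 2)) := by
          rw [add_zero, ofReal_integral_eq_lintegral_ofReal hint
            ((ae_restrict_iff' measurableSet_Ioc).mpr (Eventually.of_forall
              (fun c _ => by positivity)))]
      _ = ENNReal.ofReal (F * arcsin (m / F)) := by
          rw [← hval, intervalIntegral.integral_of_le hm0.le]
      _ ≤ ENNReal.ofReal (π / 2 * h * (2 * F / h) ^ k) := by
          apply ENNReal.ofReal_le_ofReal
          calc F * arcsin (m / F) ≤ π / 2 * h := hle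
            _ = π / 2 * h * 1 := (mul_one _).symm
            _ ≤ π / 2 * h * (2 * F / h) ^ k := by
                apply mul_le_mul_of_nonneg_left hone
                have := Real.pi_pos
                positivity

end T3

/-- T3 : averaging over the Clairaut constant. -/
theorem average {f : ℝ → ℝ} (hf : Continuous f) {R : ℝ} (hpos : ∀ r ∈ Ioo 0 R, 0 < f r)
    {h : ℝ} (hh : 0 < h) (k : ℕ) :
    ∃ c ∈ Icc (h / 2) h, IntegrableOn (leI f c) (Ioo 0 R) ∧
      ∫ r in Ioo 0 R, leI f c r ≤ π * (2 / h) ^ k * ∫ r in Ioo 0 R, f r ^ k := by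
  have hπ := Real.pi_pos
  have hmeas : Measurable (fun p : ℝ × ℝ => leI f p.1 p.2) := by
    unfold leI
    have h1 : Continuous (fun p : ℝ × ℝ => √(f p.2 ^ 2 - p.1 ^ 2)) := by fun_prop
    have h2 : Continuous (fun p : ℝ × ℝ => f p.2) := by fun_prop
    exact h2.measurable.div h1.measurable
  have hmeas' : Measurable (fun p : ℝ × ℝ => ENNReal.ofReal (leI f p.1 p.2)) :=
    hmeas.ennreal_ofReal
  have hfk : IntegrableOn (fun r => f r ^ k) (Ioo 0 R) :=
    ((hf.pow k).continuousOn.integrableOn_compact isCompact_Icc).mono_set Ioo_subset_Icc_self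
  set J := ∫ r in Ioo 0 R, f r ^ k with hJ
  have hJ0 : 0 ≤ J := setIntegral_nonneg measurableSet_Ioo (fun r hr => by
    have := hpos r hr
    positivity)
  -- the double integral
  have hdouble : ∫⁻ c in Icc (h / 2) h, ∫⁻ r in Ioo 0 R, ENNReal.ofReal (leI f c r) ≤
      ENNReal.ofReal (π / 2 * h * (2 / h) ^ k * J) := by
    rw [lintegral_lintegral_swap hmeas'.aemeasurable]
    calc ∫⁻ r in Ioo 0 R, ∫⁻ c in Icc (h / 2) h, ENNReal.ofReal (leI f c r)
        ≤ ∫⁻ r in Ioo 0 R, ENNReal.ofReal (π / 2 * h * (2 / h) ^ k * f r ^ k) := by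
          apply setLIntegral_mono' measurableSet_Ioo
          intro r hr
          have h1 := T3.inner_le (hpos r hr) hh k
          unfold leI
          refine h1.trans (le_of_eq ?_)
          congr 1
          rw [mul_div_right_comm, mul_pow]
          ring
      _ = ENNReal.ofReal (∫ r in Ioo 0 R, π / 2 * h * (2 / h) ^ k * f r ^ k) := by
          rw [ofReal_integral_eq_lintegral_ofReal (hfk.const_mul _)
            ((ae_restrict_iff' measurableSet_Ioo).mpr (Eventually.of_forall (fun r hr => by
              have := hpos r hr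
              positivity)))]
      _ = _ := by rw [integral_const_mul]
  have hvol : volume (Icc (h / 2) h) = ENNReal.ofReal (h / 2) := by
    rw [Real.volume_Icc]; congr 1; ring
  have hinner : Measurable (fun c => ∫⁻ r in Ioo 0 R, ENNReal.ofReal (leI f c r)) :=
    Measurable.lintegral_prod_right' hmeas'
  obtain ⟨c, hc, hle⟩ := exists_le_setLAverage (μ := volume) (s := Icc (h / 2) h)
    (f := fun c => ∫⁻ r in Ioo 0 R, ENNReal.ofReal (leI f c r))
    (by rw [hvol]; simp [hh]) (by rw [hvol]; simp) hinner.aemeasurable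
  have hK : ∫⁻ r in Ioo 0 R, ENNReal.ofReal (leI f c r) ≤
      ENNReal.ofReal (π * (2 / h) ^ k * J) := by
    refine hle.trans ?_
    rw [setLAverage_eq, hvol]
    refine (ENNReal.div_le_div_right hdouble _).trans ?_
    rw [← ENNReal.ofReal_div_of_pos (by positivity)]
    apply ENNReal.ofReal_le_ofReal
    apply le_of_eq
    field_simp
  have hnn : 0 ≤ᵐ[volume.restrict (Ioo 0 R)] leI f c := by
    refine (ae_restrict_iff' measurableSet_Ioo).mpr (Eventually.of_forall (fun r hr => ?_))
    have := hpos r hr
    show 0 ≤ leI f c r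
    unfold leI
    positivity
  have hms : AEStronglyMeasurable (leI f c) (volume.restrict (Ioo 0 R)) :=
    (hmeas.comp (measurable_const.prodMk measurable_id)).aestronglyMeasurable
  have hintg : IntegrableOn (leI f c) (Ioo 0 R) := by
    refine ⟨hms, ?_⟩
    rw [hasFiniteIntegral_iff_ofReal hnn]
    exact lt_of_le_of_lt hK ENNReal.ofReal_lt_top
  refine ⟨c, hc, hintg, ?_⟩
  rw [integral_eq_lintegral_of_nonneg_ae hnn hms]
  exact ENNReal.toReal_le_of_le_ofReal (by positivity) hK

end Pool.Agent.H848R2.SG
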