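import Mathlib
import Pool.Agent.H848R2.SG.Defs

namespace Pool.Agent.H848R2.SG

open MeasureTheory Set Real Filter Topology

namespace T4Aux

/-- pointwise inequality -/
theorem pw {F a b : ℝ} (hF : 0 < F) (ha : 0 < a) (hab : a ≤ b) :
    ENNReal.ofReal (√(F ^ 2 - a ^ 2) / F - √(F ^ 2 - b ^ 2) / F) ≤
      ∫⁻ t in Icc a b, ENNReal.ofReal (t / (F * √(F ^ 2 - t ^ 2))) := by
  rcases le_or_gt F a with h | h
  · have h1 : √(F ^ 2 - a ^ 2) = 0 := Real.sqrt_eq_zero_of_nonpos (by nlinarith)
    have h2 : √(F ^ 2 - b ^ 2) = 0 := Real.sqrt_eq_zero_of_nonpos (by nlinarith)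
    simp [h1, h2]
  · set b' := min b F with hb'
    have hab' : a ≤ b' := le_min hab h.le
    have hb'F : b' ≤ F := min_le_right _ _
    have hsb : √(F ^ 2 - b ^ 2) = √(F ^ 2 - b' ^ 2) := by
      rcases le_total b F with h1 | h1
      · rw [hb', min_eq_left h1]
      · rw [hb', min_eq_right h1, Real.sqrt_eq_zero_of_nonpos (by nlinarith)]
        simp
    have hcont : ContinuousOn (fun t => -(√(F ^ 2 - t ^ 2) / F)) (Icc a b') := by
      refine Continuous.continuousOn ?_
      fun_prop
    have hder : ∀ t ∈ Ioo a b', HasDerivAt (fun t => -(√(F ^ 2 - t ^ 2) / F))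
        (t / (F * √(F ^ 2 - t ^ 2))) t := by
      intro t ht
      have ht0 : 0 < t := ha.trans ht.1
      have htF : t < F := ht.2.trans_le hb'F
      have hpos : 0 < F ^ 2 - t ^ 2 := by nlinarith
      have h1 : HasDerivAt (fun t : ℝ => F ^ 2 - t ^ 2) (0 - 2 * t) t := by
        have h0 := (hasDerivAt_const t (F ^ 2)).sub (hasDerivAt_pow 2 t)
        have h00 : (0 : ℝ) - 2 * t = 0 - ((2 : ℕ) : ℝ) * t ^ (2 - 1) := by norm_num
        rw [h00]
        exact h0
      have h2 := (h1.sqrt hpos.ne').div_const F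
      have h3 := h2.neg
      have heq : t / (F * √(F ^ 2 - t ^ 2)) = -((0 - 2 * t) / (2 * √(F ^ 2 - t ^ 2)) / F) := by
        have hs : √(F ^ 2 - t ^ 2) ≠ 0 := (Real.sqrt_pos.mpr hpos).ne'
        field_simp
        ring
      rw [heq]
      exact h3
    have hnn : ∀ t ∈ Ioo a b', 0 ≤ t / (F * √(F ^ 2 - t ^ 2)) := by
      intro t ht
      have ht0 : 0 < t := ha.trans ht.1
      positivity
    have hint : IntegrableOn (fun t => t / (F * √(F ^ 2 - t ^ 2))) (Ioc a b') :=
      intervalIntegral.integrableOn_deriv_of_nonneg hcont hder hnn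
    have hii : IntervalIntegrable (fun t => t / (F * √(F ^ 2 - t ^ 2))) volume a b' :=
      (intervalIntegrable_iff_integrableOn_Ioc_of_le hab').mpr hint
    have hval := intervalIntegral.integral_eq_sub_of_hasDerivAt_of_le hab' hcont hder hii
    rw [intervalIntegral.integral_of_le hab'] at hval
    have hval2 : √(F ^ 2 - a ^ 2) / F - √(F ^ 2 - b ^ 2) / F =
        ∫ t in Ioc a b', t / (F * √(F ^ 2 - t ^ 2)) := by
      rw [hval, hsb]
      ring
    rw [hval2, ofReal_integral_eq_lintegral_ofReal hint]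
    · refine lintegral_mono_set ?_
      intro t ht
      exact ⟨ht.1.le, ht.2.trans (min_le_left _ _)⟩
    · refine (ae_restrict_iff' measurableSet_Ioc).mpr (Filter.Eventually.of_forall fun t ht => ?_)
      have ht0 : 0 < t := ha.trans ht.1
      simp only [Pi.zero_apply]
      positivity

theorem ac_bound {f : ℝ → ℝ} {c r : ℝ} (hr : 0 < f r) : ‖acI f c r‖ ≤ 1 := by
  unfold acI
  rw [Real.norm_eq_abs, abs_div, abs_of_nonneg (Real.sqrt_nonneg _), abs_of_pos hr]
  rw [div_le_one hr]
  calc √(f r ^ 2 - c ^ 2) ≤ √(f r ^ 2) := Real.sqrt_le_sqrt (by nlinarith [sq_nonneg c])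
    _ = f r := Real.sqrt_sq hr.le

theorem ac_int {f : ℝ → ℝ} (hf : Continuous f) {R : ℝ} (hpos : ∀ r ∈ Ioo 0 R, 0 < f r) (c : ℝ) :
    IntegrableOn (acI f c) (Ioo 0 R) := by
  refine Integrable.mono' (g := fun _ => (1 : ℝ)) (integrableOn_const (by simp)) ?_ ?_
  · refine Measurable.aestronglyMeasurable ?_
    unfold acI
    have := hf.measurable
    fun_prop
  · refine (ae_restrict_iff' measurableSet_Ioo).mpr (Filter.Eventually.of_forall fun r hr => ?_)
    exact ac_bound (hpos r hr)

end T4Aux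

/-- T4 : the action inequality. -/
theorem action {f : ℝ → ℝ} (hf : Continuous f) {R : ℝ} (hpos : ∀ r ∈ Ioo 0 R, 0 < f r)
    {a b M : ℝ} (ha : 0 < a) (hab : a ≤ b)
    (hint : ∀ c ∈ Icc a b, IntegrableOn (thI f c) (Ioo 0 R))
    (hM : ∀ c ∈ Icc a b, ∫ r in Ioo 0 R, thI f c r ≤ M) :
    ∫ r in Ioo 0 R, acI f a r ≤ (∫ r in Ioo 0 R, acI f b r) + M * (b - a) := by
  have hthnn : ∀ c, 0 ≤ c → ∀ r ∈ Ioo 0 R, 0 ≤ thI f c r := by
    intro c hc r hr
    have := hpos r hr
    unfold thI
    positivity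
  have hM0 : 0 ≤ M := by
    refine le_trans ?_ (hM a ⟨le_rfl, hab⟩)
    exact setIntegral_nonneg measurableSet_Ioo fun r hr => hthnn a ha.le r hr
  have hia := T4Aux.ac_int hf hpos a
  have hib := T4Aux.ac_int hf hpos b
  have hdiffnn : ∀ r ∈ Ioo 0 R, 0 ≤ acI f a r - acI f b r := by
    intro r hr
    have h := hpos r hr
    unfold acI
    have : √(f r ^ 2 - b ^ 2) ≤ √(f r ^ 2 - a ^ 2) := Real.sqrt_le_sqrt (by nlinarith)
    rw [← sub_div]
    exact div_nonneg (by linarith) h.le
  have key : ∫⁻ r in Ioo 0 R, ENNReal.ofReal (acI f a r - acI f b r) ≤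
      ENNReal.ofReal (M * (b - a)) := by
    calc ∫⁻ r in Ioo 0 R, ENNReal.ofReal (acI f a r - acI f b r)
        ≤ ∫⁻ r in Ioo 0 R, ∫⁻ t in Icc a b, ENNReal.ofReal (thI f t r) := by
          refine setLIntegral_mono' measurableSet_Ioo fun r hr => ?_
          exact T4Aux.pw (hpos r hr) ha hab
      _ = ∫⁻ t in Icc a b, ∫⁻ r in Ioo 0 R, ENNReal.ofReal (thI f t r) := by
          refine lintegral_lintegral_swap ?_
          refine Measurable.aemeasurable ?_
          refine ENNReal.measurable_ofReal.comp ?_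
          have := hf.measurable
          simp only [Function.uncurry, thI]
          fun_prop
      _ ≤ ∫⁻ t in Icc a b, ENNReal.ofReal M := by
          refine setLIntegral_mono' measurableSet_Icc fun t ht => ?_
          rw [← ofReal_integral_eq_lintegral_ofReal (hint t ht)]
          · exact ENNReal.ofReal_le_ofReal (hM t ht)
          · refine (ae_restrict_iff' measurableSet_Ioo).mpr
              (Filter.Eventually.of_forall fun r hr => ?_)
            exact hthnn t (ha.le.trans ht.1) r hr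
      _ = ENNReal.ofReal (M * (b - a)) := by
          rw [setLIntegral_const, Real.volume_Icc, ENNReal.ofReal_mul hM0]
  have h2 : ∫ r in Ioo 0 R, (acI f a r - acI f b r) ≤ M * (b - a) := by
    have hnn : 0 ≤ M * (b - a) := mul_nonneg hM0 (by linarith)
    have hsub : Integrable (fun r => acI f a r - acI f b r) (volume.restrict (Ioo 0 R)) :=
      hia.sub hib
    rw [← ENNReal.ofReal_le_ofReal_iff hnn, ofReal_integral_eq_lintegral_ofReal hsub]
    · exact key
    · exact (ae_restrict_iff' measurableSet_Ioo).mpr (Filter.Eventually.of_forall hdiffnn)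
  rw [integral_sub hia hib] at h2
  linarith

end Pool.Agent.H848R2.SG
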