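import Mathlib
import Pool.Agent.H848R2.SG.Defs

/-!
The oscillating solution of the geodesic equation with a given Clairaut constant.
(helper506, task T5 of helper848)
-/

namespace Pool.Agent.H848R2.SG

open MeasureTheory Set Real Filter Topology

namespace T5

/-- A function which is differentiable in a punctured neighbourhood, continuous at the point,
and whose derivative is continuous at the point, is differentiable at the point. -/
theorem hasDerivAt_of_eventually {F G : ℝ → ℝ} {x : ℝ}
    (h : ∀ᶠ y in 𝓝[≠] x, HasDerivAt F (G y) y) (hF : ContinuousAt F x) (hG : ContinuousAt G x) :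
    HasDerivAt F (G x) x := by
  have A : HasDerivWithinAt F (G x) (Ici x) x := by
    have h1 : ∀ᶠ y in 𝓝[>] x, HasDerivAt F (G y) y :=
      h.filter_mono (nhdsWithin_mono x fun y hy => ne_of_gt hy)
    have diff : DifferentiableOn ℝ F {y | HasDerivAt F (G y) y} := fun y hy =>
      (show HasDerivAt F (G y) y from hy).differentiableAt.differentiableWithinAt
    apply hasDerivWithinAt_Ici_of_tendsto_deriv diff hF.continuousWithinAt h1
    have h2 : Tendsto G (𝓝[>] x) (𝓝 (G x)) := tendsto_inf_left hG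
    apply h2.congr'
    filter_upwards [h1] with y hy
    exact hy.deriv.symm
  have B : HasDerivWithinAt F (G x) (Iic x) x := by
    have h1 : ∀ᶠ y in 𝓝[<] x, HasDerivAt F (G y) y :=
      h.filter_mono (nhdsWithin_mono x fun y hy => ne_of_lt hy)
    have diff : DifferentiableOn ℝ F {y | HasDerivAt F (G y) y} := fun y hy =>
      (show HasDerivAt F (G y) y from hy).differentiableAt.differentiableWithinAt
    apply hasDerivWithinAt_Iic_of_tendsto_deriv diff hF.continuousWithinAt h1
    have h2 : Tendsto G (𝓝[<] x) (𝓝 (G x)) := tendsto_inf_left hG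
    apply h2.congr'
    filter_upwards [h1] with y hy
    exact hy.deriv.symm
  simpa using B.union A

/-- the triangle wave. -/
noncomputable def tri (T t : ℝ) : ℝ := T / π * arccos (cos (π * t / T))

theorem tri_mem {T : ℝ} (hT : 0 < T) (t : ℝ) : tri T t ∈ Icc 0 T := by
  have h1 := arccos_nonneg (cos (π * t / T))
  have h2 := arccos_le_pi (cos (π * t / T))
  have hp := pi_pos
  unfold tri
  refine ⟨by positivity, ?_⟩
  calc T / π * arccos (cos (π * t / T)) ≤ T / π * π := by gcongr
    _ = T := by field_simp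

theorem continuous_tri (T : ℝ) : Continuous (tri T) := by
  unfold tri
  exact continuous_const.mul (continuous_arccos.comp (continuous_cos.comp
    ((continuous_const.mul continuous_id).div_const T)))

theorem tri_add {T : ℝ} (hT : 0 < T) (t : ℝ) : tri T (t + 2 * T) = tri T t := by
  unfold tri
  have h1 : π * (t + 2 * T) / T = π * t / T + 2 * π := by field_simp
  rw [h1, cos_add_two_pi]

theorem tri_sub {T : ℝ} (hT : 0 < T) (t : ℝ) : tri T (2 * T - t) = tri T t := by
  unfold tri
  have h1 : π * (2 * T - t) / T = 2 * π - π * t / T := by field_simp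
  rw [h1, cos_two_pi_sub]

theorem tri_eq {T : ℝ} (hT : 0 < T) {t : ℝ} (h0 : 0 ≤ t) (h1 : t ≤ T) : tri T t = t := by
  unfold tri
  have hp := pi_pos
  rw [arccos_cos (by positivity)]
  · field_simp
  · rw [div_le_iff₀ hT]
    gcongr

theorem tri_exc {T : ℝ} {t : ℝ} (h : sin (π * t / T) = 0) :
    tri T t = 0 ∨ tri T t = T := by
  unfold tri
  have hp := pi_pos
  have h1 : cos (π * t / T) = 1 ∨ cos (π * t / T) = -1 := by
    have h2 := sin_sq_add_cos_sq (π * t / T)
    rw [h] at h2
    have h3 : (cos (π * t / T) - 1) * (cos (π * t / T) + 1) = 0 := by nlinarith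
    rcases mul_eq_zero.1 h3 with h4 | h4
    · left; linarith
    · right; linarith
  rcases h1 with h1 | h1
  · left; rw [h1, arccos_one, mul_zero]
  · right; rw [h1, arccos_neg_one]; field_simp

theorem cos_ne {x : ℝ} (h : sin x ≠ 0) : cos x ≠ 1 ∧ cos x ≠ -1 := by
  have h2 := sin_sq_add_cos_sq x
  constructor
  · intro h3
    apply h
    rw [h3] at h2
    have : sin x ^ 2 = 0 := by linarith
    exact pow_eq_zero_iff (two_ne_zero) |>.1 this
  · intro h3
    apply h
    rw [h3] at h2
    have : sin x ^ 2 = 0 := by linarith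
    exact pow_eq_zero_iff (two_ne_zero) |>.1 this

theorem tri_reg {T : ℝ} (hT : 0 < T) {t : ℝ} (h : sin (π * t / T) ≠ 0) :
    tri T t ∈ Ioo 0 T := by
  have hp := pi_pos
  obtain ⟨h1, h2⟩ := cos_ne h
  have h3 : arccos (cos (π * t / T)) ≠ 0 := by
    intro h4
    apply h1
    rw [← cos_arccos (neg_one_le_cos (π * t / T)) (cos_le_one _), h4, cos_zero]
  have h4 : arccos (cos (π * t / T)) ≠ π := by
    intro h4
    apply h2
    rw [← cos_arccos (neg_one_le_cos (π * t / T)) (cos_le_one _), h4, cos_pi]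
  obtain ⟨h5, h6⟩ := tri_mem hT t
  refine ⟨lt_of_le_of_ne h5 ?_, lt_of_le_of_ne h6 ?_⟩
  · intro h7
    unfold tri at h7
    rcases mul_eq_zero.1 h7.symm with h8 | h8
    · exact absurd h8 (by positivity)
    · exact h3 h8
  · intro h7
    apply h4
    unfold tri at h7
    field_simp at h7
    linarith

theorem hasDerivAt_tri {T : ℝ} (hT : 0 < T) {t : ℝ} (h : sin (π * t / T) ≠ 0) :
    HasDerivAt (tri T) (SignType.sign (sin (π * t / T)) : ℝ) t := by
  have hp := pi_pos
  obtain ⟨h1, h2⟩ := cos_ne h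
  have h3 : HasDerivAt (fun t : ℝ => π * t / T) (π / T) t := by
    have := ((hasDerivAt_id t).const_mul π).div_const T
    simpa using this
  have h4 := (hasDerivAt_arccos h2 h1).comp t ((hasDerivAt_cos _).comp t h3)
  have h5 := h4.const_mul (T / π)
  have h6 : √(1 - cos (π * t / T) ^ 2) = |sin (π * t / T)| := by
    rw [← sin_sq, sqrt_sq_eq_abs]
  have h7 : (T / π) * (-(1 / √(1 - cos (π * t / T) ^ 2)) * (-sin (π * t / T) * (π / T))) =
      (SignType.sign (sin (π * t / T)) : ℝ) := by
    rw [h6]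
    rcases lt_or_gt_of_ne h with h8 | h8
    · rw [sign_neg h8, abs_of_neg h8]
      have : sin (π * t / T) ≠ 0 := h
      have e : ((-1 : SignType) : ℝ) = -1 := by simp
      rw [e]
      field_simp
    · rw [sign_pos h8, abs_of_pos h8]
      have : sin (π * t / T) ≠ 0 := h
      have e : ((1 : SignType) : ℝ) = 1 := by simp
      rw [e]
      field_simp
  rw [← h7]
  exact h5

/-- the length integrand, extended by one. -/
noncomputable def Lx (f : ℝ → ℝ) (a b c x : ℝ) : ℝ := (Ioo a b).piecewise (leI f c) (fun _ => 1) x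

variable {f : ℝ → ℝ} {a b c : ℝ}

theorem one_le_leI (hc : 0 < c) {x : ℝ} (hx : c < f x) : 1 ≤ leI f c x := by
  unfold leI
  have h1 : 0 < f x ^ 2 - c ^ 2 := by nlinarith
  have h2 : 0 < √(f x ^ 2 - c ^ 2) := sqrt_pos.2 h1
  rw [le_div_iff₀ h2, one_mul]
  rw [sqrt_le_left (by linarith)]
  nlinarith

theorem one_le_Lx (hc : 0 < c) (hcf : ∀ r ∈ Ioo a b, c < f r) (x : ℝ) : 1 ≤ Lx f a b c x := by
  unfold Lx
  by_cases hx : x ∈ Ioo a b
  · rw [piecewise_eq_of_mem _ _ _ hx]
    exact one_le_leI hc (hcf x hx)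
  · rw [piecewise_eq_of_notMem _ _ _ hx]

theorem Lx_int (hint : IntegrableOn (leI f c) (Ioo a b)) (x y : ℝ) :
    IntervalIntegrable (Lx f a b c) volume x y := by
  have e : Lx f a b c = fun x => (Ioo a b).indicator (leI f c) x +
      (Ioo a b)ᶜ.indicator (fun _ => (1 : ℝ)) x := by
    funext x
    unfold Lx
    by_cases hx : x ∈ Ioo a b
    · rw [piecewise_eq_of_mem _ _ _ hx, indicator_of_mem hx, indicator_of_notMem (notMem_compl_iff.2 hx),
        add_zero]
    · rw [piecewise_eq_of_notMem _ _ _ hx, indicator_of_notMem hx, indicator_of_mem hx, zero_add]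
  rw [e]
  refine IntervalIntegrable.add ?_ ?_
  · exact ((integrable_indicator_iff measurableSet_Ioo).2 hint).intervalIntegrable
  · rw [intervalIntegrable_iff]
    exact (integrableOn_const (by simp)).indicator measurableSet_Ioo.compl

/-- the time as a function of the position. -/
noncomputable def tau (f : ℝ → ℝ) (a b c x : ℝ) : ℝ := ∫ t in a..x, Lx f a b c t

theorem tau_sub (hc : 0 < c) (hcf : ∀ r ∈ Ioo a b, c < f r)
    (hint : IntegrableOn (leI f c) (Ioo a b)) {x y : ℝ} (hxy : x ≤ y) :
    y - x ≤ tau f a b c y - tau f a b c x := by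
  unfold tau
  rw [intervalIntegral.integral_interval_sub_left (Lx_int hint _ _) (Lx_int hint _ _)]
  have h1 : ∫ _t in x..y, (1 : ℝ) = y - x := by simp
  rw [← h1]
  exact intervalIntegral.integral_mono_on hxy (by simp) (Lx_int hint _ _)
    fun t _ => one_le_Lx hc hcf t

theorem strictMono_tau (hc : 0 < c) (hcf : ∀ r ∈ Ioo a b, c < f r)
    (hint : IntegrableOn (leI f c) (Ioo a b)) : StrictMono (tau f a b c) := by
  intro x y hxy
  have := tau_sub hc hcf hint hxy.le
  linarith

theorem continuous_tau (hint : IntegrableOn (leI f c) (Ioo a b)) : Continuous (tau f a b c) :=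
  intervalIntegral.continuous_primitive (Lx_int hint) a

theorem tau_a : tau f a b c a = 0 := by unfold tau; simp

theorem tau_b (hab : a < b) : tau f a b c b = ∫ r in Ioo a b, leI f c r := by
  unfold tau
  rw [intervalIntegral.integral_of_le hab.le, integral_Ioc_eq_integral_Ioo]
  refine setIntegral_congr_fun measurableSet_Ioo fun x hx => ?_
  exact piecewise_eq_of_mem _ _ _ hx

theorem surjective_tau (hc : 0 < c) (hcf : ∀ r ∈ Ioo a b, c < f r)
    (hint : IntegrableOn (leI f c) (Ioo a b)) : Function.Surjective (tau f a b c) := by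
  refine (continuous_tau hint).surjective ?_ ?_
  · refine tendsto_atTop_mono' atTop ?_ (tendsto_atTop_add_const_right atTop (-a) tendsto_id)
    filter_upwards [eventually_ge_atTop a] with x hx
    have := tau_sub hc hcf hint hx
    rw [tau_a] at this
    simp only [id]
    linarith
  · refine tendsto_atBot_mono' atBot ?_ (tendsto_atBot_add_const_right atBot (-a) tendsto_id)
    filter_upwards [eventually_le_atBot a] with x hx
    have := tau_sub hc hcf hint hx
    rw [tau_a] at this
    simp only [id]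
    linarith

theorem hasDerivAt_tau (hf : Continuous f) (hc : 0 < c) (hcf : ∀ r ∈ Ioo a b, c < f r)
    (hint : IntegrableOn (leI f c) (Ioo a b)) {r : ℝ} (hr : r ∈ Ioo a b) :
    HasDerivAt (tau f a b c) (leI f c r) r := by
  have h1 : ContinuousAt (leI f c) r := by
    unfold leI
    have h1 : 0 < f r ^ 2 - c ^ 2 := by nlinarith [hcf r hr]
    exact hf.continuousAt.div (continuous_sqrt.comp (by fun_prop)).continuousAt
      (sqrt_pos.2 h1).ne'
  have h2 : Lx f a b c =ᶠ[𝓝 r] leI f c := by
    filter_upwards [isOpen_Ioo.mem_nhds hr] with x hx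
    exact piecewise_eq_of_mem _ _ _ hx
  have h3 : ContinuousAt (Lx f a b c) r := h1.congr h2.symm
  have h4 : Lx f a b c r = leI f c r := piecewise_eq_of_mem _ _ _ hr
  rw [← h4]
  have hm : Measurable (Lx f a b c) := by
    unfold Lx
    refine Measurable.piecewise measurableSet_Ioo ?_ measurable_const
    unfold leI
    exact hf.measurable.div (by fun_prop)
  exact intervalIntegral.integral_hasDerivAt_right (Lx_int hint _ _)
    (hm.stronglyMeasurable.stronglyMeasurableAtFilter) h3

/-- the position as a function of the time, on the line. -/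
theorem exists_sigma (hf : Continuous f) (hc : 0 < c) (hab : a < b)
    (hcf : ∀ r ∈ Ioo a b, c < f r) (hint : IntegrableOn (leI f c) (Ioo a b)) :
    ∃ σ : ℝ → ℝ, Continuous σ ∧ (∀ r, σ (tau f a b c r) = r) ∧
      (∀ s ∈ Icc 0 (∫ r in Ioo a b, leI f c r), σ s ∈ Icc a b) ∧
      (∀ s ∈ Ioo 0 (∫ r in Ioo a b, leI f c r), σ s ∈ Ioo a b ∧
        HasDerivAt σ (leI f c (σ s))⁻¹ s) := by
  let e : ℝ ≃o ℝ := StrictMono.orderIsoOfSurjective (tau f a b c) (strictMono_tau hc hcf hint)
    (surjective_tau hc hcf hint)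
  have he : ∀ x, e x = tau f a b c x := fun x => rfl
  have h1 : ∀ r, e.symm (tau f a b c r) = r := fun r => by rw [← he, e.symm_apply_apply]
  have h2 : ∀ r, tau f a b c (e.symm r) = r := fun r => by rw [← he, e.apply_symm_apply]
  have ha : e.symm 0 = a := by rw [← tau_a (f := f) (a := a) (b := b) (c := c), h1]
  have hb : e.symm (∫ r in Ioo a b, leI f c r) = b := by rw [← tau_b hab, h1]
  refine ⟨e.symm, e.symm.continuous, h1, fun s hs => ?_, fun s hs => ?_⟩
  · rw [← ha]
    constructor
    · exact e.symm.monotone hs.1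
    · have := e.symm.monotone hs.2
      rwa [hb] at this
  · have h3 : e.symm s ∈ Ioo a b := by
      constructor
      · rw [← ha]; exact e.symm.strictMono hs.1
      · have := e.symm.strictMono hs.2
        rwa [hb] at this
    refine ⟨h3, ?_⟩
    refine HasDerivAt.of_local_left_inverse (f := tau f a b c) e.symm.continuous.continuousAt
      (hasDerivAt_tau hf hc hcf hint h3) ?_ (Eventually.of_forall h2)
    have := one_le_leI hc (hcf _ h3)
    linarith

end T5

open T5 in
/-- T5 : the oscillating solution with Clairaut constant `c` between `a` and `b`. -/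
theorem exists_osc {f : ℝ → ℝ} (hf : ContDiff ℝ 2 f) {a b c : ℝ} (hc : 0 < c) (hab : a < b)
    (hfa : f a = c) (hfb : f b = c) (hcf : ∀ r ∈ Ioo a b, c < f r)
    (hint : IntegrableOn (leI f c) (Ioo a b)) :
    ∃ ρ v : ℝ → ℝ, (∀ t, ρ t ∈ Icc a b) ∧
      (∀ t, ρ (t + 2 * ∫ r in Ioo a b, leI f c r) = ρ t) ∧
      (∀ t, HasDerivAt ρ (v t) t) ∧
      (∀ t, HasDerivAt v (c ^ 2 * deriv f (ρ t) / f (ρ t) ^ 3) t) ∧
      (∀ t, v t ^ 2 = 1 - c ^ 2 / f (ρ t) ^ 2) ∧
      (∫ t in (0)..(2 * ∫ r in Ioo a b, leI f c r), c / f (ρ t) ^ 2) =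
        2 * ∫ r in Ioo a b, thI f c r := by
  have hfc : Continuous f := hf.continuous
  obtain ⟨σ, hσc, hσ1, hσ2, hσ3⟩ := exists_sigma hfc hc hab hcf hint
  set T : ℝ := ∫ r in Ioo a b, leI f c r with hTdef
  have hT : 0 < T := by
    have h1 := tau_sub hc hcf hint hab.le
    rw [tau_b hab, tau_a] at h1
    linarith
  have hσ0 : σ 0 = a := by rw [← tau_a (f := f) (a := a) (b := b) (c := c), hσ1]
  have hσT : σ T = b := by rw [hTdef, ← tau_b hab, hσ1]
  let ρ : ℝ → ℝ := fun t => σ (tri T t)
  let s : ℝ → ℝ := fun t => (SignType.sign (sin (π * t / T)) : ℝ)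
  let w : ℝ → ℝ := fun x => √(f x ^ 2 - c ^ 2) / f x
  let v : ℝ → ℝ := fun t => s t * w (ρ t)
  have hρc : Continuous ρ := hσc.comp (continuous_tri T)
  have hρI : ∀ t, ρ t ∈ Icc a b := fun t => hσ2 _ (tri_mem hT t)
  have hfρ : ∀ t, c ≤ f (ρ t) := by
    intro t
    obtain ⟨h1, h2⟩ := hρI t
    rcases h1.eq_or_lt with h1 | h1
    · rw [← h1, hfa]
    · rcases h2.eq_or_lt with h2 | h2
      · rw [h2, hfb]
      · exact (hcf _ ⟨h1, h2⟩).le
  have hfρ0 : ∀ t, f (ρ t) ≠ 0 := fun t => (lt_of_lt_of_le hc (hfρ t)).ne'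
  have hexc : ∀ t, sin (π * t / T) = 0 → f (ρ t) = c := by
    intro t ht
    rcases tri_exc ht with h | h
    · show f (σ (tri T t)) = c
      rw [h, hσ0, hfa]
    · by_cases hT0 : T = 0
      · exact absurd hT0 hT.ne'
      · show f (σ (tri T t)) = c
        rw [h, hσT, hfb]
  have hreg : ∀ t, sin (π * t / T) ≠ 0 → c < f (ρ t) := fun t ht =>
    hcf _ (hσ3 _ (tri_reg hT ht)).1
  -- derivative of the position at regular times
  have hρd : ∀ t, sin (π * t / T) ≠ 0 → HasDerivAt ρ (v t) t := by
    intro t ht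
    have h1 := (hσ3 _ (tri_reg hT ht)).2.comp t (hasDerivAt_tri hT ht)
    have h2 : (leI f c (σ (tri T t)))⁻¹ * (SignType.sign (sin (π * t / T)) : ℝ) = v t := by
      show _ = s t * w (ρ t)
      rw [mul_comm]
      congr 1
      show (f (ρ t) / √(f (ρ t) ^ 2 - c ^ 2))⁻¹ = √(f (ρ t) ^ 2 - c ^ 2) / f (ρ t)
      rw [inv_div]
    rw [← h2]
    exact h1
  have hsin : Continuous fun t : ℝ => sin (π * t / T) :=
    continuous_sin.comp ((continuous_const.mul continuous_id).div_const T)
  have hsloc : ∀ t, sin (π * t / T) ≠ 0 → ∀ᶠ u in 𝓝 t, s u = s t := by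
    intro t ht
    rcases lt_or_gt_of_ne ht with h | h
    · filter_upwards [hsin.continuousAt.eventually_lt_const h] with u hu
      show (SignType.sign (sin (π * u / T)) : ℝ) = (SignType.sign (sin (π * t / T)) : ℝ)
      rw [sign_neg hu, sign_neg h]
    · filter_upwards [hsin.continuousAt.eventually_const_lt h] with u hu
      show (SignType.sign (sin (π * u / T)) : ℝ) = (SignType.sign (sin (π * t / T)) : ℝ)
      rw [sign_pos hu, sign_pos h]
  have hs2 : ∀ t, sin (π * t / T) ≠ 0 → s t * s t = 1 := by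
    intro t ht
    rcases lt_or_gt_of_ne ht with h | h
    · show (SignType.sign (sin (π * t / T)) : ℝ) * (SignType.sign (sin (π * t / T)) : ℝ) = 1
      rw [sign_neg h]; simp
    · show (SignType.sign (sin (π * t / T)) : ℝ) * (SignType.sign (sin (π * t / T)) : ℝ) = 1
      rw [sign_pos h]; simp
  have hvd : ∀ t, sin (π * t / T) ≠ 0 →
      HasDerivAt v (c ^ 2 * deriv f (ρ t) / f (ρ t) ^ 3) t := by
    intro t ht
    have hd : HasDerivAt f (deriv f (ρ t)) (ρ t) :=
      (hf.differentiable (by norm_num)).differentiableAt.hasDerivAt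
    have h1 : 0 < f (ρ t) ^ 2 - c ^ 2 := by nlinarith [hreg t ht]
    have hw : HasDerivAt w (((1 / (2 * √(f (ρ t) ^ 2 - c ^ 2))) * (2 * f (ρ t) * deriv f (ρ t)) *
        f (ρ t) - √(f (ρ t) ^ 2 - c ^ 2) * deriv f (ρ t)) / f (ρ t) ^ 2) (ρ t) := by
      have h2 : HasDerivAt (fun x => f x ^ 2 - c ^ 2) (2 * f (ρ t) * deriv f (ρ t)) (ρ t) := by
        have := (hd.pow 2).sub_const (c ^ 2)
        simpa using this
      have h3 := (hasDerivAt_sqrt h1.ne').comp (ρ t) h2
      exact h3.div hd (hfρ0 t)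
    have h4 := (hw.comp t (hρd t ht)).const_mul (s t)
    have h5 : v =ᶠ[𝓝 t] fun u => s t * (w ∘ ρ) u := by
      filter_upwards [hsloc t ht] with u hu
      show s u * w (ρ u) = s t * w (ρ u)
      rw [hu]
    refine (h4.congr_of_eventuallyEq h5).congr_deriv ?_
    have h6 : v t = s t * (√(f (ρ t) ^ 2 - c ^ 2) / f (ρ t)) := rfl
    rw [h6]
    have h7 := hs2 t ht
    have h8 := Real.mul_self_sqrt h1.le
    have h9 : √(f (ρ t) ^ 2 - c ^ 2) ≠ 0 := (sqrt_pos.2 h1).ne'
    have h10 := hfρ0 t
    generalize √(f (ρ t) ^ 2 - c ^ 2) = q at h8 h9 ⊢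
    generalize f (ρ t) = F at h8 h10 ⊢
    generalize deriv f (ρ t) = F'
    generalize s t = S at h7 ⊢
    have e : S * ((1 / (2 * q) * (2 * F * F') * F - q * F') / F ^ 2 * (S * (q / F))) =
        (S * S) * (F' * (F ^ 2 - q * q) / F ^ 3) := by
      field_simp
    rw [e, h7, h8]
    ring
  have hexcd : ∀ t, sin (π * t / T) = 0 → ∀ᶠ u in 𝓝[≠] t, sin (π * u / T) ≠ 0 := by
    intro t ht
    have h3 : HasDerivAt (fun t : ℝ => π * t / T) (π / T) t := by
      have := ((hasDerivAt_id t).const_mul π).div_const T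
      simpa using this
    have h4 : HasDerivAt (fun t : ℝ => sin (π * t / T)) (cos (π * t / T) * (π / T)) t :=
      (hasDerivAt_sin _).comp t h3
    refine h4.eventually_ne ?_
    have h5 := sin_sq_add_cos_sq (π * t / T)
    rw [ht] at h5
    have h6 : cos (π * t / T) ≠ 0 := by
      intro h7
      rw [h7] at h5
      norm_num at h5
    have := pi_pos
    positivity
  have hwc : Continuous fun t => w (ρ t) := by
    show Continuous fun t => √(f (ρ t) ^ 2 - c ^ 2) / f (ρ t)
    exact (continuous_sqrt.comp (((hfc.comp hρc).pow 2).sub continuous_const)).div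
      (hfc.comp hρc) hfρ0
  have hv0 : ∀ t, sin (π * t / T) = 0 → v t = 0 := by
    intro t ht
    show (SignType.sign (sin (π * t / T)) : ℝ) * w (ρ t) = 0
    rw [ht, _root_.sign_zero]
    simp
  have hvc : ∀ t, sin (π * t / T) = 0 → ContinuousAt v t := by
    intro t ht
    have h1 : w (ρ t) = 0 := by
      show √(f (ρ t) ^ 2 - c ^ 2) / f (ρ t) = 0
      rw [hexc t ht, sub_self, sqrt_zero, zero_div]
    have h2 : Tendsto (fun u => |w (ρ u)|) (𝓝 t) (𝓝 0) := by
      have := (hwc.abs).tendsto t
      rwa [h1, abs_zero] at this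
    unfold ContinuousAt
    rw [hv0 t ht]
    refine squeeze_zero_norm (fun u => ?_) h2
    show ‖(SignType.sign (sin (π * u / T)) : ℝ) * w (ρ u)‖ ≤ |w (ρ u)|
    rw [norm_mul, norm_eq_abs, norm_eq_abs]
    have h3 : |(SignType.sign (sin (π * u / T)) : ℝ)| ≤ 1 := by
      cases h : SignType.sign (sin (π * u / T)) <;> simp
    calc _ ≤ 1 * |w (ρ u)| := by gcongr
      _ = _ := one_mul _
  have hdf : Continuous (deriv f) := hf.continuous_deriv (by norm_num)
  have hGc : Continuous fun t => c ^ 2 * deriv f (ρ t) / f (ρ t) ^ 3 :=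
    (continuous_const.mul (hdf.comp hρc)).div ((hfc.comp hρc).pow 3)
      fun t => pow_ne_zero 3 (hfρ0 t)
  refine ⟨ρ, v, hρI, ?_, ?_, ?_, ?_, ?_⟩
  · intro t
    show σ (tri T (t + 2 * T)) = σ (tri T t)
    rw [tri_add hT]
  · intro t
    by_cases ht : sin (π * t / T) = 0
    · exact hasDerivAt_of_eventually ((hexcd t ht).mono fun u hu => hρd u hu)
        hρc.continuousAt (hvc t ht)
    · exact hρd t ht
  · intro t
    by_cases ht : sin (π * t / T) = 0
    · exact hasDerivAt_of_eventually (G := fun t => c ^ 2 * deriv f (ρ t) / f (ρ t) ^ 3)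
        ((hexcd t ht).mono fun u hu => hvd u hu) (hvc t ht) hGc.continuousAt
    · exact hvd t ht
  · intro t
    by_cases ht : sin (π * t / T) = 0
    · rw [hv0 t ht, hexc t ht]
      field_simp
      simp
    · show (s t * (√(f (ρ t) ^ 2 - c ^ 2) / f (ρ t))) ^ 2 = _
      have h1 : 0 < f (ρ t) ^ 2 - c ^ 2 := by nlinarith [hreg t ht]
      have h2 := hfρ0 t
      rw [mul_pow, div_pow, sq_sqrt h1.le, pow_two (s t), hs2 t ht, one_mul]
      field_simp
  · have hgc : Continuous fun t => c / f (ρ t) ^ 2 :=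
      continuous_const.div ((hfc.comp hρc).pow 2) fun t => pow_ne_zero 2 (hfρ0 t)
    have h1 : ∫ t in T..(2 * T), c / f (ρ t) ^ 2 = ∫ t in (0)..T, c / f (ρ t) ^ 2 := by
      have h2 := intervalIntegral.integral_comp_sub_left (a := 0) (b := T)
        (fun t => c / f (ρ t) ^ 2) (2 * T)
      have h3 : ∀ t, ρ (2 * T - t) = ρ t := fun t => by
        show σ (tri T (2 * T - t)) = σ (tri T t)
        rw [tri_sub hT]
      simp only [h3] at h2
      rw [h2]
      congr 1 <;> ring
    have h2 : ∫ t in (0)..T, c / f (ρ t) ^ 2 = ∫ r in Ioo a b, thI f c r := by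
      rw [intervalIntegral.integral_of_le hT.le, integral_Ioc_eq_integral_Ioo]
      have h3 : ∫ t in Ioo 0 T, c / f (ρ t) ^ 2 = ∫ t in Ioo 0 T, c / f (σ t) ^ 2 := by
        refine setIntegral_congr_fun measurableSet_Ioo fun t ht => ?_
        show c / f (σ (tri T t)) ^ 2 = _
        rw [tri_eq hT ht.1.le ht.2.le]
      have h4 : tau f a b c '' Ioo a b = Ioo 0 T := by
        ext y
        constructor
        · rintro ⟨r, hr, rfl⟩
          have h5 := strictMono_tau hc hcf hint hr.1
          have h6 := strictMono_tau hc hcf hint hr.2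
          rw [tau_a] at h5
          rw [tau_b hab] at h6
          exact ⟨h5, h6⟩
        · intro hy
          obtain ⟨r, rfl⟩ := surjective_tau hc hcf hint y
          refine ⟨r, ⟨?_, ?_⟩, rfl⟩
          · rw [← (strictMono_tau hc hcf hint).lt_iff_lt, tau_a]
            exact hy.1
          · rw [← (strictMono_tau hc hcf hint).lt_iff_lt, tau_b hab]
            exact hy.2
      rw [h3, ← h4, integral_image_eq_integral_abs_deriv_smul measurableSet_Ioo
        (fun r hr => (hasDerivAt_tau hfc hc hcf hint hr).hasDerivWithinAt)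
        (strictMono_tau hc hcf hint).injective.injOn]
      refine setIntegral_congr_fun measurableSet_Ioo fun r hr => ?_
      have h5 := one_le_leI hc (hcf r hr)
      have h6 : f r ≠ 0 := (hc.trans (hcf r hr)).ne'
      have h7 : 0 < f r ^ 2 - c ^ 2 := by nlinarith [hcf r hr]
      have h8 : √(f r ^ 2 - c ^ 2) ≠ 0 := (sqrt_pos.2 h7).ne'
      simp only [smul_eq_mul]
      rw [abs_of_pos (by linarith), hσ1]
      unfold leI thI
      field_simp
    rw [← intervalIntegral.integral_add_adjacent_intervals (b := T)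
      (hgc.intervalIntegrable _ _) (hgc.intervalIntegrable _ _), h1, h2]
    ring

end Pool.Agent.H848R2.SG
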