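import Mathlib
import Pool.Agent.H848R2.SG.Defs
import Pool.Agent.H848R2.SG.Geo
import Pool.Agent.H848R2.SG.T1
import Pool.Agent.H848R2.SG.T2
import Pool.Agent.H848R2.SG.T2m
import Pool.Agent.H848R2.SG.T3
import Pool.Agent.H848R2.SG.T4
import Pool.Agent.H848R2.SG.T5

/-!
Short periodic geodesics on rotationally symmetric spheres: assembly.
-/

namespace Pool.Agent.H848R2.SG

open MeasureTheory Set Real Filter Topology

theorem Profile.f_zero {R : ℝ} {f : ℝ → ℝ} (hf : Profile R f) : f 0 = 0 := by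
  have := hf.odd_zero 0
  simp at this
  linarith

theorem Profile.f_R {R : ℝ} {f : ℝ → ℝ} (hf : Profile R f) : f R = 0 := by
  have := hf.odd_R 0
  simp at this
  linarith

theorem Profile.reflect {R : ℝ} {f : ℝ → ℝ} (hf : Profile R f) :
    ContDiff ℝ (⊤ : ℕ∞) (fun r => f (R - r)) :=
  hf.smooth.comp (contDiff_const.sub contDiff_id)

/-- pointwise relation between the three integrands -/
theorem le_eq {f : ℝ → ℝ} {c r : ℝ} (hc : 0 < c) (hfr : 0 < f r) :
    leI f c r = acI f c r + c * thI f c r := by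
  unfold leI acI thI
  rcases le_or_gt (f r) c with h | h
  · have h1 : f r ^ 2 - c ^ 2 ≤ 0 := by nlinarith
    rw [Real.sqrt_eq_zero_of_nonpos h1]
    simp
  · have h1 : 0 < f r ^ 2 - c ^ 2 := by nlinarith
    have h2 : 0 < √(f r ^ 2 - c ^ 2) := Real.sqrt_pos.2 h1
    have h3 : √(f r ^ 2 - c ^ 2) ^ 2 = f r ^ 2 - c ^ 2 := Real.sq_sqrt h1.le
    field_simp
    nlinarith

theorem thI_nonneg {f : ℝ → ℝ} {c r : ℝ} (hc : 0 < c) (hfr : 0 < f r) : 0 ≤ thI f c r := by
  unfold thI; positivity

theorem acI_nonneg {f : ℝ → ℝ} {c r : ℝ} (hfr : 0 < f r) : 0 ≤ acI f c r := by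
  unfold acI; positivity

theorem leI_nonneg {f : ℝ → ℝ} {c r : ℝ} (hfr : 0 < f r) : 0 ≤ leI f c r := by
  unfold leI; positivity

theorem th_le {f : ℝ → ℝ} {c r : ℝ} (hc : 0 < c) (hfr : 0 < f r) :
    thI f c r ≤ c⁻¹ * leI f c r := by
  have h1 := le_eq (f := f) (r := r) hc hfr
  have h2 := acI_nonneg (f := f) (c := c) hfr
  rw [h1, mul_add, ← mul_assoc, inv_mul_cancel₀ hc.ne', one_mul]
  have : 0 ≤ c⁻¹ * acI f c r := by positivity
  linarith

theorem leI_zero {f : ℝ → ℝ} {c r : ℝ} (h0 : 0 ≤ f r) (h : f r ≤ c) : leI f c r = 0 := by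
  unfold leI
  rw [Real.sqrt_eq_zero_of_nonpos (by nlinarith)]; simp

theorem thI_zero {f : ℝ → ℝ} {c r : ℝ} (h0 : 0 ≤ f r) (h : f r ≤ c) : thI f c r = 0 := by
  unfold thI
  rw [Real.sqrt_eq_zero_of_nonpos (by nlinarith)]; simp

theorem acI_le_one {f : ℝ → ℝ} {c r : ℝ} (hfr : 0 < f r) : acI f c r ≤ 1 := by
  unfold acI
  rw [div_le_one hfr]
  calc √(f r ^ 2 - c ^ 2) ≤ √(f r ^ 2) := Real.sqrt_le_sqrt (by nlinarith [sq_nonneg c])
    _ = f r := Real.sqrt_sq hfr.le

theorem acI_integrable {f : ℝ → ℝ} (hf : Continuous f) {R c : ℝ}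
    (hpos : ∀ r ∈ Ioo 0 R, 0 < f r) : IntegrableOn (acI f c) (Ioo 0 R) := by
  have hm : AEStronglyMeasurable (acI f c) volume := by
    apply Measurable.aestronglyMeasurable
    unfold acI
    exact ((((hf.measurable).pow_const 2).sub_const _).sqrt).div hf.measurable
  refine Measure.integrableOn_of_bounded (M := 1) (by simp) hm ?_
  refine (ae_restrict_iff' measurableSet_Ioo).2 (Eventually.of_forall fun r hr => ?_)
  rw [Real.norm_eq_abs, abs_of_nonneg (acI_nonneg (hpos r hr))]
  exact acI_le_one (hpos r hr)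

/-- the total half angle is integrable, continuous and tends to `π` as `c → 0+`. -/
theorem angle_total {R : ℝ} {f : ℝ → ℝ} (hf : Profile R f) {α β H : ℝ} (hH : 0 < H)
    (hα : 0 < α) (hαβ : α < β) (hβ : β < R) (hfα : f α = H) (hfβ : f β = H)
    (h1 : ∀ r ∈ Icc 0 α, 0 < deriv f r) (h2 : ∀ r ∈ Icc β R, deriv f r < 0)
    (h3 : ∀ r ∈ Icc α β, H ≤ f r) :
    (∀ c ∈ Ioo 0 H, IntegrableOn (thI f c) (Ioo 0 R)) ∧
    ContinuousOn (fun c => ∫ r in Ioo 0 R, thI f c r) (Ioo 0 H) ∧
    Tendsto (fun c => ∫ r in Ioo 0 R, thI f c r) (𝓝[>] 0) (𝓝 π) := by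
  have hfd : Differentiable ℝ f := hf.smooth.differentiable (by simp)
  obtain ⟨a1, a2, a3⟩ := end_part (hf.smooth.of_le (by exact_mod_cast le_top)) hα hH hf.f_zero
    hf.deriv_zero h1 hfα
  obtain ⟨m1, m2, m3⟩ := mid_part hf.smooth.continuous hαβ hH h3
  set g : ℝ → ℝ := fun r => f (R - r) with hg
  have hgd : ∀ r, deriv g r = -deriv f (R - r) := by
    intro r
    have : HasDerivAt g (deriv f (R - r) * (0 - 1)) r :=
      ((hfd (R - r)).hasDerivAt).comp r ((hasDerivAt_const r R).sub (hasDerivAt_id r))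
    rw [this.deriv]; ring
  obtain ⟨b1, b2, b3⟩ := end_part (f := g) (α := R - β) (H := H)
    (hf.reflect.of_le (by exact_mod_cast le_top)) (by linarith) hH
    (by simp [hg, hf.f_R]) (by rw [hgd]; simp [hf.deriv_R])
    (by
      intro r hr
      rw [hgd]
      have := h2 (R - r) ⟨by linarith [hr.2], by linarith [hr.1]⟩
      linarith)
    (by simp [hg, hfβ])
  have hthg : ∀ c r, thI g c r = thI f c (R - r) := fun c r => rfl
  -- transfer of the right end
  have c1 : ∀ c ∈ Ioo 0 H, IntegrableOn (thI f c) (Ioo β R) := by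
    intro c hc
    have e1 := b1 c hc
    rw [← integrableOn_Ioc_iff_integrableOn_Ioo, ← intervalIntegrable_iff_integrableOn_Ioc_of_le
      (by linarith)] at e1
    have e2 := e1.comp_sub_left R
    simp only [hthg] at e2
    rw [← integrableOn_Ioc_iff_integrableOn_Ioo,
      ← intervalIntegrable_iff_integrableOn_Ioc_of_le hβ.le]
    have e3 : IntervalIntegrable (fun x => thI f c (R - (R - x))) volume R β := by
      simpa using e2
    simpa using e3.symm
  have c2 : ∀ c, ∫ r in Ioo β R, thI f c r = ∫ r in Ioo 0 (R - β), thI g c r := by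
    intro c
    rw [← integral_Ioc_eq_integral_Ioo, ← integral_Ioc_eq_integral_Ioo,
      ← intervalIntegral.integral_of_le hβ.le, ← intervalIntegral.integral_of_le (by linarith)]
    simp only [hthg]
    rw [intervalIntegral.integral_comp_sub_left (fun x => thI f c x) R]
    simp
  have hsplit : Ioo 0 R = (Ioo 0 α ∪ Icc α β) ∪ Ioo β R := by
    ext x
    simp only [mem_Ioo, mem_union, mem_Icc]
    constructor
    · rintro ⟨p, q⟩
      by_cases s1 : x < α
      · left; left; exact ⟨p, s1⟩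
      · by_cases s2 : x ≤ β
        · left; right; exact ⟨not_lt.1 s1, s2⟩
        · right; exact ⟨not_le.1 s2, q⟩
    · rintro ((⟨p, q⟩ | ⟨p, q⟩) | ⟨p, q⟩)
      · exact ⟨p, by linarith⟩
      · exact ⟨by linarith, by linarith⟩
      · exact ⟨by linarith, q⟩
  have hint : ∀ c ∈ Ioo 0 H, IntegrableOn (thI f c) (Ioo 0 R) := by
    intro c hc
    rw [hsplit]
    exact ((a1 c hc).union (m1 c hc)).union (c1 c hc)
  have hsum : ∀ c ∈ Ioo 0 H, ∫ r in Ioo 0 R, thI f c r =
      (∫ r in Ioo 0 α, thI f c r) + (∫ r in Icc α β, thI f c r) +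
        ∫ r in Ioo 0 (R - β), thI g c r := by
    intro c hc
    rw [hsplit, setIntegral_union _ measurableSet_Ioo ((a1 c hc).union (m1 c hc)) (c1 c hc),
      setIntegral_union _ measurableSet_Icc (a1 c hc) (m1 c hc), c2]
    · rw [Set.disjoint_left]
      intro x hx hx'
      exact absurd hx'.1 (not_le.2 hx.2)
    · rw [Set.disjoint_left]
      rintro x (hx | hx) hx'
      · have := hx.2; have := hx'.1; linarith
      · have := hx.2; have := hx'.1; linarith
  refine ⟨hint, ?_, ?_⟩
  · exact ((a2.add m2).add b2).congr hsum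
  · have h4 := (a3.add m3).add b3
    have h5 : π / 2 + 0 + π / 2 = π := by ring
    rw [h5] at h4
    refine h4.congr' ?_
    have : Ioo 0 H ∈ 𝓝[>] (0:ℝ) := Ioo_mem_nhdsGT hH
    filter_upwards [this] with c hc
    exact (hsum c hc).symm

/-- **Main theorem**. -/
theorem main {n : ℕ} (hn : 2 ≤ n) {R : ℝ} {f : ℝ → ℝ} (hf : Profile R f) :
    ∃ (r : ℝ → ℝ) (u : ℝ → EuclideanSpace ℝ (Fin n)) (T : ℝ),
      IsPeriodicGeodesic n R f r u T ∧
      ∫ t in (0)..T, speed f r u t ≤
        16 * π * (2 * ∫ r in Ioo 0 R, f r ^ (n - 1)) ^ (1 / (n : ℝ)) := by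
  have hfc := hf.smooth.continuous
  set κ : ℝ := ∫ r in Ioo 0 R, f r ^ (n - 1) with hκ
  have hκpos : 0 < κ := by
    rw [hκ, ← integral_Ioc_eq_integral_Ioo, ← intervalIntegral.integral_of_le hf.R_pos.le]
    apply intervalIntegral.intervalIntegral_pos_of_pos_on
      ((hfc.pow _).intervalIntegrable _ _) _ hf.R_pos
    intro x hx
    exact pow_pos (hf.pos x hx) _
  set lam : ℝ := 16 * π * (2 * κ) ^ (1 / (n : ℝ)) with hlam
  have hpi := Real.pi_pos
  have hlampos : 0 < lam := by positivity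
  have hn0 : (n : ℝ) ≠ 0 := by positivity
  have hlamn : lam ^ n = (16 * π) ^ n * (2 * κ) := by
    rw [hlam, mul_pow]
    congr 1
    rw [← Real.rpow_natCast, ← Real.rpow_mul (by positivity)]
    simp [hn0]
  have key : π * (2 / (lam / (8 * π))) ^ (n - 1) * κ = lam / 32 := by
    have h1 : 2 / (lam / (8 * π)) = 16 * π / lam := by field_simp; ring
    rw [h1, div_pow]
    obtain ⟨k, rfl⟩ : ∃ k, n = k + 1 := ⟨n - 1, by omega⟩
    simp only [Nat.add_sub_cancel]
    have h2 : lam ^ k * lam = (16 * π) ^ k * (16 * π) * (2 * κ) := by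
      rw [← pow_succ, hlamn, pow_succ]
    have h3 : lam ^ k ≠ 0 := by positivity
    field_simp
    rw [h2]
    ring
  by_cases hA : ∃ r ∈ Ioo 0 R, deriv f r = 0 ∧ f r < lam / (2 * π)
  · -- a short parallel
    obtain ⟨r0, hr0, hd, hlt⟩ := hA
    have hf0 := hf.pos r0 hr0
    obtain ⟨u, hu, hs⟩ := closing (n := n) hn hf (c := f r0) (P := π * f r0) hf0
      (ρ := fun _ => r0) (v := fun _ => 0) (fun _ => hr0) (fun _ => rfl)
      (fun t => hasDerivAt_const t r0)
      (fun t => by rw [hd]; simpa using hasDerivAt_const t (0:ℝ))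
      (fun t => by field_simp; norm_num) (by positivity)
      (by
        rw [intervalIntegral.integral_const]
        simp only [sub_zero, smul_eq_mul]
        field_simp)
    refine ⟨_, u, _, hu, ?_⟩
    have : (fun t => speed f (fun _ => r0) u t) = fun _ => 1 := funext hs
    rw [this, intervalIntegral.integral_const]
    simp only [sub_zero, smul_eq_mul, mul_one]
    have h1 : f r0 * (2 * π) < lam := by rwa [lt_div_iff₀ (by positivity)] at hlt
    linarith
  · push Not at hA
    set h : ℝ := lam / (8 * π) with hh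
    have hhpos : 0 < h := by positivity
    have hHm : 2 * h < lam / (2 * π) := by
      rw [hh, ← mul_div_assoc, div_lt_div_iff₀ (by positivity) (by positivity)]
      nlinarith [mul_pos hlampos hpi]
    obtain ⟨α, β, hα, hαβ, hβ, hfα, hfβ, h1, h2, h3⟩ :=
      structure_profile hf (m := lam / (2 * π)) (H := 2 * h) (by positivity) hHm hA
    obtain ⟨j1, j2, j3⟩ := angle_total hf (by positivity) hα hαβ hβ hfα hfβ h1 h2 h3
    obtain ⟨cs, hcs, hint, hav⟩ := average hfc hf.pos hhpos (n - 1)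
    rw [← hκ, hh, key] at hav
    have hcspos : 0 < cs := by linarith [hcs.1]
    have hcsH : cs < 2 * h := by linarith [hcs.2]
    set J : ℝ → ℝ := fun c => ∫ r in Ioo 0 R, thI f c r with hJ
    have hJcs : J cs ≤ π / 2 := by
      have e1 : J cs ≤ ∫ r in Ioo 0 R, cs⁻¹ * leI f cs r := by
        apply setIntegral_mono_on (j1 cs ⟨hcspos, hcsH⟩) (hint.const_mul _) measurableSet_Ioo
        intro r hr
        exact th_le hcspos (hf.pos r hr)
      rw [integral_const_mul] at e1
      have e2 : cs⁻¹ ≤ (h / 2)⁻¹ := inv_anti₀ (by positivity) hcs.1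
      have e3 : 0 ≤ ∫ r in Ioo 0 R, leI f cs r :=
        setIntegral_nonneg measurableSet_Ioo fun r hr => leI_nonneg (hf.pos r hr)
      calc J cs ≤ cs⁻¹ * ∫ r in Ioo 0 R, leI f cs r := e1
        _ ≤ (h / 2)⁻¹ * (lam / 32) := mul_le_mul e2 hav e3 (by positivity)
        _ = π / 2 := by rw [hh]; field_simp; norm_num
    -- the last level with half angle π/2
    obtain ⟨ε, hε0, hεcs, hεJ⟩ : ∃ ε, 0 < ε ∧ ε < cs ∧ π / 2 < J ε := by
      have e1 : ∀ᶠ c in 𝓝[>] (0:ℝ), π / 2 < J c := j3.eventually (lt_mem_nhds (by linarith))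
      have e2 : ∀ᶠ c in 𝓝[>] (0:ℝ), c ∈ Ioo 0 cs := Ioo_mem_nhdsGT hcspos
      obtain ⟨c, h5, h6⟩ := (e1.and e2).exists
      exact ⟨c, h6.1, h6.2, h5⟩
    have hJc : ContinuousOn J (Icc ε cs) :=
      j2.mono fun c hc => ⟨by linarith [hc.1], by linarith [hc.2]⟩
    have hKc : IsCompact {c ∈ Icc ε cs | π / 2 ≤ J c} := by
      have : IsClosed (Icc ε cs ∩ J ⁻¹' (Ici (π / 2))) :=
        hJc.preimage_isClosed_of_isClosed isClosed_Icc isClosed_Ici
      exact isCompact_Icc.of_isClosed_subset this (fun x hx => hx.1)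
    obtain ⟨c2, hc2, hc2max⟩ := hKc.exists_isGreatest ⟨ε, ⟨le_rfl, hεcs.le⟩, hεJ.le⟩
    have hc2m : c2 ∈ Icc ε cs := hc2.1
    have hc2pos : 0 < c2 := lt_of_lt_of_le hε0 hc2m.1
    have hafter : ∀ c ∈ Ioc c2 cs, J c < π / 2 := by
      intro c hc
      by_contra hcon
      push Not at hcon
      have := hc2max ⟨⟨by linarith [hc2m.1, hc.1], hc.2⟩, hcon⟩
      linarith [hc.1]
    have hJc2 : J c2 = π / 2 := by
      refine le_antisymm ?_ hc2.2
      rcases eq_or_lt_of_le hc2m.2 with he | hlt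
      · rw [he]; exact hJcs
      · have e1 : Tendsto J (𝓝[Ioc c2 cs] c2) (𝓝 (J c2)) := by
          have := hJc c2 hc2m
          exact this.mono_left (nhdsWithin_mono _ fun x hx => ⟨by linarith [hc2m.1, hx.1], hx.2⟩)
        have : (𝓝[Ioc c2 cs] c2).NeBot := by
          rw [nhdsWithin_Ioc_eq_nhdsGT hlt]; infer_instance
        refine le_of_tendsto e1 ?_
        filter_upwards [self_mem_nhdsWithin] with c hc
        exact (hafter c hc).le
    have hbd : ∀ c ∈ Icc c2 cs, J c ≤ π / 2 := by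
      intro c hc
      rcases eq_or_lt_of_le hc.1 with he | hlt
      · rw [← he, hJc2]
      · exact (hafter c ⟨hlt, hc.2⟩).le
    have hact := action hfc hf.pos hc2pos hc2m.2
      (fun c hc => j1 c ⟨by linarith [hc.1], by linarith [hc.2]⟩) hbd
    have hc2H : c2 < 2 * h := by linarith [hc2m.2]
    have hth2 := j1 c2 ⟨hc2pos, hc2H⟩
    have hac2 := acI_integrable (c := c2) hfc hf.pos
    have hacs := acI_integrable (c := cs) hfc hf.pos
    have hle2 : IntegrableOn (leI f c2) (Ioo 0 R) := by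
      refine (hac2.add (hth2.const_mul c2)).congr_fun ?_ measurableSet_Ioo
      intro r hr
      exact (le_eq hc2pos (hf.pos r hr)).symm
    have hle2v : ∫ r in Ioo 0 R, leI f c2 r = (∫ r in Ioo 0 R, acI f c2 r) + c2 * (π / 2) := by
      rw [← hJc2, hJ]
      simp only
      rw [← integral_const_mul, ← integral_add hac2 (hth2.const_mul c2)]
      exact setIntegral_congr_fun measurableSet_Ioo fun r hr => le_eq hc2pos (hf.pos r hr)
    have hacle : ∫ r in Ioo 0 R, acI f cs r ≤ ∫ r in Ioo 0 R, leI f cs r := by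
      apply setIntegral_mono_on hacs hint measurableSet_Ioo
      intro r hr
      rw [le_eq hcspos (hf.pos r hr)]
      have := thI_nonneg (f := f) (r := r) hcspos (hf.pos r hr)
      have : 0 ≤ cs * thI f cs r := by positivity
      linarith
    have hfin : ∫ r in Ioo 0 R, leI f c2 r ≤ 3 * lam / 32 := by
      have e1 : π / 2 * h = lam / 16 := by rw [hh]; field_simp; norm_num
      have e2 : π / 2 * cs ≤ π / 2 * h := mul_le_mul_of_nonneg_left hcs.2 (by positivity)
      rw [hle2v]
      nlinarith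
    -- turning points
    have hf0 := hf.f_zero
    have hfR := hf.f_R
    obtain ⟨a, ha, hfa⟩ : c2 ∈ f '' Icc 0 α :=
      intermediate_value_Icc hα.le hfc.continuousOn ⟨by rw [hf0]; exact hc2pos.le,
        by rw [hfα]; exact hc2H.le⟩
    obtain ⟨b, hb, hfb⟩ : c2 ∈ f '' Icc β R :=
      intermediate_value_Icc' hβ.le hfc.continuousOn ⟨by rw [hfR]; exact hc2pos.le,
        by rw [hfβ]; exact hc2H.le⟩
    have hmono : StrictMonoOn f (Icc 0 α) := by
      apply strictMonoOn_of_deriv_pos (convex_Icc _ _) hfc.continuousOn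
      intro x hx
      exact h1 x (interior_subset hx)
    have hanti : StrictAntiOn f (Icc β R) := by
      apply strictAntiOn_of_deriv_neg (convex_Icc _ _) hfc.continuousOn
      intro x hx
      exact h2 x (interior_subset hx)
    have ha0 : 0 < a := by
      rcases eq_or_lt_of_le ha.1 with he | hlt
      · rw [← he, hf0] at hfa; linarith
      · exact hlt
    have haα : a < α := by
      rcases eq_or_lt_of_le ha.2 with he | hlt
      · rw [he, hfα] at hfa; linarith
      · exact hlt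
    have hbR : b < R := by
      rcases eq_or_lt_of_le hb.2 with he | hlt
      · rw [he, hfR] at hfb; linarith
      · exact hlt
    have hβb : β < b := by
      rcases eq_or_lt_of_le hb.1 with he | hlt
      · rw [← he, hfβ] at hfb; linarith
      · exact hlt
    have hab : a < b := by linarith
    have hin : ∀ r ∈ Ioo a b, c2 < f r := by
      intro r hr
      rcases le_or_gt r α with s | s
      · rw [← hfa]; exact hmono ha ⟨by linarith [hr.1], s⟩ hr.1
      · rcases le_or_gt r β with s' | s'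
        · have := h3 r ⟨s.le, s'⟩; linarith
        · rw [← hfb]; exact hanti ⟨s'.le, by linarith [hr.2]⟩ hb hr.2
    have hout : ∀ r ∈ Ioo 0 R \ Ioo a b, f r ≤ c2 := by
      rintro r ⟨hr, hr'⟩
      rcases le_or_gt r a with s | s
      · rw [← hfa]; exact hmono.monotoneOn ⟨hr.1.le, by linarith⟩ ha s
      · have s2 : b ≤ r := by
          by_contra hcon
          exact hr' ⟨s, not_le.1 hcon⟩
        rw [← hfb]; exact hanti.antitoneOn hb ⟨by linarith, hr.2.le⟩ s2
    have hsub : Ioo a b ⊆ Ioo 0 R := Ioo_subset_Ioo ha0.le hbR.le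
    have hLe : ∫ r in Ioo 0 R, leI f c2 r = ∫ r in Ioo a b, leI f c2 r :=
      setIntegral_eq_of_subset_of_forall_sdiff_eq_zero measurableSet_Ioo hsub
        fun r hr => leI_zero (hf.pos r hr.1).le (hout r hr)
    have hTh : ∫ r in Ioo 0 R, thI f c2 r = ∫ r in Ioo a b, thI f c2 r :=
      setIntegral_eq_of_subset_of_forall_sdiff_eq_zero measurableSet_Ioo hsub
        fun r hr => thI_zero (hf.pos r hr.1).le (hout r hr)
    obtain ⟨ρ, v, p1, p2, p3, p4, p5, p6⟩ := exists_osc
      (contDiff_infty.1 hf.smooth 2) hc2pos hab hfa hfb hin (hle2.mono_set hsub)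
    set P : ℝ := 2 * ∫ r in Ioo a b, leI f c2 r with hP
    have hang : ∫ t in (0)..P, c2 / f (ρ t) ^ 2 = π := by
      rw [p6, ← hTh]
      have : ∫ r in Ioo 0 R, thI f c2 r = π / 2 := hJc2
      rw [this]; ring
    have hPpos : 0 < P := by
      have e1 : 0 ≤ P := by
        rw [hP]
        have : 0 ≤ ∫ r in Ioo a b, leI f c2 r :=
          setIntegral_nonneg measurableSet_Ioo fun r hr => leI_nonneg (hf.pos r (hsub hr))
        linarith
      rcases eq_or_lt_of_le e1 with he | hlt
      · rw [← he, intervalIntegral.integral_same] at hang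
        linarith
      · exact hlt
    obtain ⟨u, hu, hs⟩ := closing (n := n) hn hf hc2pos (ρ := ρ) (v := v)
      (fun t => ⟨by linarith [(p1 t).1], by linarith [(p1 t).2]⟩) p2 p3 p4 p5 hPpos hang
    refine ⟨ρ, u, 2 * P, hu, ?_⟩
    have : (fun t => speed f ρ u t) = fun _ => 1 := funext hs
    rw [this, intervalIntegral.integral_const]
    simp only [sub_zero, smul_eq_mul, mul_one]
    rw [hP, ← hLe]
    linarith

end Pool.Agent.H848R2.SG
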