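import Mathlib
import Pool.Agent.H848R2.SG.Defs

namespace Pool.Agent.H848R2.SG

open MeasureTheory Set Real Filter Topology

/-- T1 : structure of the profile when all critical values are at least `m`. -/
theorem structure_profile {R : ℝ} {f : ℝ → ℝ} (hf : Profile R f) {m H : ℝ} (hH : 0 < H)
    (hHm : H < m) (hcrit : ∀ r ∈ Ioo 0 R, deriv f r = 0 → m ≤ f r) :
    ∃ α β : ℝ, 0 < α ∧ α < β ∧ β < R ∧ f α = H ∧ f β = H ∧
      (∀ r ∈ Icc 0 α, 0 < deriv f r) ∧ (∀ r ∈ Icc β R, deriv f r < 0) ∧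
      (∀ r ∈ Icc α β, H ≤ f r) := by
  sorry

/-- T2 : contribution of one end to the rotation angle. -/
theorem end_part {f : ℝ → ℝ} (hf : ContDiff ℝ 1 f) {α H : ℝ} (hα : 0 < α) (hH : 0 < H)
    (h0 : f 0 = 0) (h1 : deriv f 0 = 1) (hder : ∀ r ∈ Icc 0 α, 0 < deriv f r) (hfα : f α = H) :
    (∀ c ∈ Ioo 0 H, IntegrableOn (thI f c) (Ioo 0 α)) ∧
    ContinuousOn (fun c => ∫ r in Ioo 0 α, thI f c r) (Ioo 0 H) ∧
    Tendsto (fun c => ∫ r in Ioo 0 α, thI f c r) (𝓝[>] 0) (𝓝 (π / 2)) := by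
  sorry

/-- T2' : contribution of the middle part to the rotation angle. -/
theorem mid_part {f : ℝ → ℝ} (hf : Continuous f) {α β H : ℝ} (hαβ : α < β) (hH : 0 < H)
    (hmid : ∀ r ∈ Icc α β, H ≤ f r) :
    (∀ c ∈ Ioo 0 H, IntegrableOn (thI f c) (Icc α β)) ∧
    ContinuousOn (fun c => ∫ r in Icc α β, thI f c r) (Ioo 0 H) ∧
    Tendsto (fun c => ∫ r in Icc α β, thI f c r) (𝓝[>] 0) (𝓝 0) := by
  sorry

/-- T3 : averaging over the Clairaut constant. -/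
theorem average {f : ℝ → ℝ} (hf : Continuous f) {R : ℝ} (hpos : ∀ r ∈ Ioo 0 R, 0 < f r)
    {h : ℝ} (hh : 0 < h) (k : ℕ) :
    ∃ c ∈ Icc (h / 2) h, IntegrableOn (leI f c) (Ioo 0 R) ∧
      ∫ r in Ioo 0 R, leI f c r ≤ π * (2 / h) ^ k * ∫ r in Ioo 0 R, f r ^ k := by
  sorry

/-- T4 : the action inequality. -/
theorem action {f : ℝ → ℝ} (hf : Continuous f) {R : ℝ} (hpos : ∀ r ∈ Ioo 0 R, 0 < f r)
    {a b M : ℝ} (ha : 0 < a) (hab : a ≤ b)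
    (hint : ∀ c ∈ Icc a b, IntegrableOn (thI f c) (Ioo 0 R))
    (hM : ∀ c ∈ Icc a b, ∫ r in Ioo 0 R, thI f c r ≤ M) :
    ∫ r in Ioo 0 R, acI f a r ≤ (∫ r in Ioo 0 R, acI f b r) + M * (b - a) := by
  sorry

/-- T5 : the oscillating solution with Clairaut constant `c` between `a` and `b`. -/
theorem exists_osc {f : ℝ → ℝ} (hf : ContDiff ℝ 2 f) {a b c : ℝ} (hc : 0 < c) (hab : a < b)
    (hfa : f a = c) (hfb : f b = c) (hcf : ∀ r ∈ Ioo a b, c < f r)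
    (hint : IntegrableOn (leI f c) (Ioo a b)) :
    ∃ ρ v : ℝ → ℝ, (∀ t, ρ t ∈ Icc a b) ∧
      (∀ t, ρ (t + 2 * ∫ r in Ioo a b, leI f c r) = ρ t) ∧
      (∀ t, HasDerivAt ρ (v t) t) ∧
      (∀ t, HasDerivAt v (c ^ 2 * deriv f (ρ t) / f (ρ t) ^ 3) t) ∧
      (∀ t, v t ^ 2 = 1 - c ^ 2 / f (ρ t) ^ 2) ∧
      (∫ t in (0)..(2 * ∫ r in Ioo a b, leI f c r), c / f (ρ t) ^ 2) =
        2 * ∫ r in Ioo a b, thI f c r := by
  sorry

end Pool.Agent.H848R2.SG
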